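import Pool.Agent.helper74.VD.SpecA3

/-!
# Project VD (MP_07c750_an), block A3, row ASAD: the synthesis of beams is a contraction (adapted from the row VSA of VQ, helper89)
-/

set_option autoImplicit false

open scoped ContDiff Topology InnerProductSpace ComplexConjugate ENNReal
open MeasureTheory Filter Set

namespace Pool.Agent.VD

open Pool.Agent.VQ (CH)

noncomputable section

theorem ASAD_cs {X : Type} [MeasurableSpace X] (μ : Measure X) (f g : X → ℝ) (hf : Integrable (fun x => f x ^ 2) μ)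
    (hg : Integrable (fun x => g x ^ 2) μ) (hfg : Integrable (fun x => f x * g x) μ) :
    ∫ x, f x * g x ∂μ ≤ Real.sqrt (∫ x, f x ^ 2 ∂μ) * Real.sqrt (∫ x, g x ^ 2 ∂μ) := by
  set A := ∫ x, f x ^ 2 ∂μ with hA
  set M := ∫ x, f x * g x ∂μ with hM
  set B := ∫ x, g x ^ 2 ∂μ with hB
  have hA0 : 0 ≤ A := integral_nonneg (fun x => by positivity)
  have key : ∀ x : ℝ, 0 ≤ A * (x * x) + (-2 * M) * x + B := by
    intro s
    have h1 : ∫ x, (s * f x - g x) ^ 2 ∂μ = A * (s * s) + (-2 * M) * s + B := by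
      have e1 : ∀ x, (s * f x - g x) ^ 2 = (s * s) * f x ^ 2 + ((-2 * s) * (f x * g x) + g x ^ 2) := fun x => by ring
      simp only [e1]
      have j1 : Integrable (fun x => (s * s) * f x ^ 2) μ := hf.const_mul _
      have j2 : Integrable (fun x => (-2 * s) * (f x * g x)) μ := hfg.const_mul _
      have j3 : Integrable (fun x => (-2 * s) * (f x * g x) + g x ^ 2) μ := j2.add hg
      rw [integral_add j1 j3, integral_add j2 hg, integral_const_mul, integral_const_mul]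
      ring
    rw [← h1]
    exact integral_nonneg (fun x => by positivity)
  have h2 := discrim_le_zero key
  rw [discrim] at h2
  have h3 : M ^ 2 ≤ A * B := by nlinarith
  rw [← Real.sqrt_mul hA0]
  exact (le_abs_self M).trans (by rw [← Real.sqrt_sq_eq_abs]; exact Real.sqrt_le_sqrt h3)

/-- integrability of continuous functions on `F` -/
theorem ASAD_ci {d : ℕ} {G : V d → V d →L[ℝ] V d} {F : Set (V d)} (hfin : ∀ S : Set (V d), IsCompact S → mv G S < ⊤)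
    (hF : MeasurableSet F) {g : V d → ℝ} (hg : Continuous g) (hs : ∃ b : ℝ, ∀ z ∈ F, g z ≠ 0 → ‖z‖ ≤ b) : IntegrableOn g F (mv G) := by
  obtain ⟨b, hb⟩ := hs
  have hm : IsFiniteMeasureOnCompacts (mv G) := ⟨fun S hS => hfin S hS⟩
  have h1 : IntegrableOn g (Metric.closedBall (0 : V d) b) (mv G) := hg.continuousOn.integrableOn_compact (isCompact_closedBall 0 b)
  refine (h1.mono_set (inter_subset_right : F ∩ Metric.closedBall (0 : V d) b ⊆ _)).of_forall_sdiff_eq_zero hF (fun z hz => ?_)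
  by_contra h0
  exact hz.2 ⟨hz.1, by rw [mem_closedBall_zero_iff]; exact hb z hz.1 h0⟩

theorem ASAD_isq {d : ℕ} {Γ : Type} [Group Γ] [MulAction Γ (V d)] {Λ : Subgroup Γ} {G : V d → V d →L[ℝ] V d} {F : Set (V d)}
    (hfin : ∀ S : Set (V d), IsCompact S → mv G S < ⊤) (hF : MeasurableSet F) {φ : V d → ℂ} (hφ : FH Λ F φ) :
    IntegrableOn (fun z => ‖φ z‖ ^ 2) F (mv G) := by
  obtain ⟨b, hb⟩ := hφ.supp
  refine ASAD_ci hfin hF (hφ.cont.norm.pow 2) ⟨b, fun z hz h0 => hb z hz (fun h1 => h0 ?_)⟩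
  rw [h1]; simp

theorem ASAD_imul {d : ℕ} {Γ : Type} [Group Γ] [MulAction Γ (V d)] {Λ : Subgroup Γ} {G : V d → V d →L[ℝ] V d} {F : Set (V d)}
    (hfin : ∀ S : Set (V d), IsCompact S → mv G S < ⊤) (hF : MeasurableSet F) {φ ψ : V d → ℂ} (hφ : FH Λ F φ) (hψ : FH Λ F ψ) :
    IntegrableOn (fun z => ‖φ z‖ * ‖ψ z‖) F (mv G) := by
  obtain ⟨b, hb⟩ := hφ.supp
  refine ASAD_ci hfin hF (hφ.cont.norm.mul hψ.cont.norm) ⟨b, fun z hz h0 => hb z hz (fun h1 => h0 ?_)⟩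
  rw [h1]; simp

theorem ASAD_csn {d : ℕ} {Γ : Type} [Group Γ] [MulAction Γ (V d)] {Λ : Subgroup Γ} {G : V d → V d →L[ℝ] V d} {F : Set (V d)}
    (hfin : ∀ S : Set (V d), IsCompact S → mv G S < ⊤) (hF : MeasurableSet F) {φ ψ : V d → ℂ} (hφ : FH Λ F φ) (hψ : FH Λ F ψ) :
    ∫ z in F, ‖φ z‖ * ‖ψ z‖ ∂mv G ≤ Real.sqrt (nn G F φ) * Real.sqrt (nn G F ψ) :=
  ASAD_cs _ _ _ (ASAD_isq hfin hF hφ) (ASAD_isq hfin hF hψ) (ASAD_imul hfin hF hφ hψ)

theorem ASAD_mink {d : ℕ} {Γ : Type} [Group Γ] [MulAction Γ (V d)] {Λ : Subgroup Γ} {G : V d → V d →L[ℝ] V d} {F : Set (V d)}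
    (hfin : ∀ S : Set (V d), IsCompact S → mv G S < ⊤) (hF : MeasurableSet F) {φ ψ : V d → ℂ} (hφ : FH Λ F φ) (hψ : FH Λ F ψ) :
    Real.sqrt (nn G F (fun z => φ z + ψ z)) ≤ Real.sqrt (nn G F φ) + Real.sqrt (nn G F ψ) := by
  have hn1 : 0 ≤ nn G F φ := integral_nonneg (fun z => by positivity)
  have hn2 : 0 ≤ nn G F ψ := integral_nonneg (fun z => by positivity)
  apply Real.sqrt_le_iff.mpr
  refine ⟨by positivity, ?_⟩
  have i1 := ASAD_isq hfin hF hφ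
  have i2 := ASAD_isq hfin hF hψ
  have i3 := ASAD_imul hfin hF hφ hψ
  have h1 : nn G F (fun z => φ z + ψ z) ≤ ∫ z in F, (‖φ z‖ ^ 2 + (2 * (‖φ z‖ * ‖ψ z‖) + ‖ψ z‖ ^ 2)) ∂mv G := by
    refine integral_mono_of_nonneg (Eventually.of_forall fun z => by positivity) (i1.add ((i3.const_mul 2).add i2)) (Eventually.of_forall fun z => ?_)
    show ‖φ z + ψ z‖ ^ 2 ≤ ‖φ z‖ ^ 2 + (2 * (‖φ z‖ * ‖ψ z‖) + ‖ψ z‖ ^ 2)
    have h2 := norm_add_le (φ z) (ψ z)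
    have h3 := norm_nonneg (φ z + ψ z)
    nlinarith [pow_le_pow_left₀ h3 h2 2]
  have j1 : IntegrableOn (fun z => 2 * (‖φ z‖ * ‖ψ z‖)) F (mv G) := i3.const_mul 2
  have j2 : IntegrableOn (fun z => 2 * (‖φ z‖ * ‖ψ z‖) + ‖ψ z‖ ^ 2) F (mv G) := j1.add i2
  rw [integral_add i1 j2, integral_add j1 i2, integral_const_mul] at h1
  have h4 := ASAD_csn hfin hF hφ hψ
  have h5 := Real.sq_sqrt hn1
  have h6 := Real.sq_sqrt hn2
  have h7 : ∫ z in F, ‖φ z‖ ^ 2 ∂mv G = nn G F φ := rfl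
  have h8 : ∫ z in F, ‖ψ z‖ ^ 2 ∂mv G = nn G F ψ := rfl
  rw [h7, h8] at h1
  nlinarith

/-- measurability on the index set -/
theorem ASAD_meas {d : ℕ} {Γ : Type} [Group Γ] [MulAction Γ (V d)]
    (h : ∀ f : YS Γ d → ENNReal, Measurable f ↔ ∀ γ : Γ, Measurable fun p : P d => f (γ, p)) {g : YS Γ d → ℂ}
    (hg : ∀ γ : Γ, Measurable fun p : P d => g (γ, p)) : Measurable g := by
  intro U hU
  have h1 : Measurable ((g ⁻¹' U).indicator (fun _ => (1 : ENNReal))) := by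
    rw [h]
    intro γ
    have h2 : (fun p : P d => (g ⁻¹' U).indicator (fun _ => (1 : ENNReal)) ((γ, p) : YS Γ d)) =
        ((fun p : P d => g (γ, p)) ⁻¹' U).indicator (fun _ => (1 : ENNReal)) := by
      funext p
      by_cases hp : g ((γ, p) : YS Γ d) ∈ U
      · exact (indicator_of_mem (show ((γ, p) : YS Γ d) ∈ g ⁻¹' U from hp) _).trans (indicator_of_mem (show p ∈ (fun p : P d => g (γ, p)) ⁻¹' U from hp) (fun _ => (1 : ENNReal))).symm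
      · exact (indicator_of_notMem (show ((γ, p) : YS Γ d) ∉ g ⁻¹' U from hp) _).trans (indicator_of_notMem (show p ∉ (fun p : P d => g (γ, p)) ⁻¹' U from hp) (fun _ => (1 : ENNReal))).symm
    rw [h2]
    exact measurable_const.indicator (hg γ hU)
  exact (measurable_indicator_const_iff (1 : ENNReal)).mp h1

/-- integrability of the integrand of the synthesis -/
theorem ASAD_int {d : ℕ} {Γ : Type} [Group Γ] [MulAction Γ (V d)] {G : V d → V d →L[ℝ] V d} {Φ : ℝ → P d → P d} {r0 C : ℝ} {Kd : ℕ} {η m R t : ℝ}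
    {f : YS Γ d → V d → ℂ} {Λ : Subgroup Γ} {T : Set Γ}
    (hfs : ∀ r : ℝ, (SG Γ d r).Finite)
    (hms : ∀ f : YS Γ d → ENNReal, Measurable f ↔ ∀ γ : Γ, Measurable fun p : P d => f (γ, p))
    (hli : ∀ f : YS Γ d → ENNReal, Measurable f → ∫⁻ y, f y ∂mY Γ d = ∑' γ : Γ, ∫⁻ p : P d, f (γ, p))
    (hGW : MeasurableSet (GW Γ G r0 2 R)) (hvol : volume {p : P d | ‖p.1‖ ≤ r0 ∧ |Ep G p| ≤ 2 * R ^ (-(1 / 4) : ℝ)} < ⊤)
    (hfa : Fa G Φ r0 Kd η m R t f) (hm : 0 ≤ m)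
    (hb : ∀ y ∈ GW Γ G r0 2 R, ∀ z, ‖pF f y z‖ ≤ m ∧ (pF f y z ≠ 0 → ‖y.1⁻¹ • z‖ ≤ C))
    {v : YS Γ d → ℂ} (hv : FP Λ T v) (z : V d) : Integrable (fun y => v y * pF f y z) (mW Γ G r0 R) := by
  obtain ⟨b, hvb⟩ := hv.bdd
  have hS0 : {γ : Γ | ‖γ⁻¹ • z‖ ≤ C}.Finite := by
    have h1 := (hfs (max C ‖z‖)).preimage (inv_injective (G := Γ)).injOn
    refine h1.subset fun γ hγ => ?_
    exact ⟨z, le_max_right _ _, le_trans hγ (le_max_left _ _)⟩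
  have hTm : MeasurableSet {y : YS Γ d | ‖y.1⁻¹ • z‖ ≤ C} := by
    have h1 : Measurable ({y : YS Γ d | ‖y.1⁻¹ • z‖ ≤ C}.indicator (fun _ => (1 : ENNReal))) := by
      rw [hms]
      intro γ
      by_cases hγ : ‖γ⁻¹ • z‖ ≤ C
      · have h2 : (fun p : P d => {y : YS Γ d | ‖y.1⁻¹ • z‖ ≤ C}.indicator (fun _ => (1 : ENNReal)) ((γ, p) : YS Γ d)) = fun _ => 1 := by
          funext p
          exact indicator_of_mem (show ((γ, p) : YS Γ d) ∈ {y : YS Γ d | ‖y.1⁻¹ • z‖ ≤ C} from hγ) _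
        rw [h2]
        exact measurable_const
      · have h2 : (fun p : P d => {y : YS Γ d | ‖y.1⁻¹ • z‖ ≤ C}.indicator (fun _ => (1 : ENNReal)) ((γ, p) : YS Γ d)) = fun _ => 0 := by
          funext p
          exact indicator_of_notMem (show ((γ, p) : YS Γ d) ∉ {y : YS Γ d | ‖y.1⁻¹ • z‖ ≤ C} from hγ) _
        rw [h2]
        exact measurable_const
    exact (measurable_indicator_const_iff (1 : ENNReal)).mp h1
  have hSm : MeasurableSet ({y : YS Γ d | ‖y.1⁻¹ • z‖ ≤ C} ∩ GW Γ G r0 2 R) := hTm.inter hGW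
  have hSf : mY Γ d ({y : YS Γ d | ‖y.1⁻¹ • z‖ ≤ C} ∩ GW Γ G r0 2 R) < ⊤ := by
    classical
    rw [← lintegral_indicator_one hSm, hli _ (measurable_one.indicator hSm)]
    have h3 : ∀ γ : Γ, γ ∉ hS0.toFinset → ∫⁻ p : P d, ({y : YS Γ d | ‖y.1⁻¹ • z‖ ≤ C} ∩ GW Γ G r0 2 R).indicator (1 : YS Γ d → ENNReal) ((γ, p) : YS Γ d) = 0 := by
      intro γ hγ
      rw [lintegral_eq_zero_iff' (by
        have := (hms _).mp (measurable_one.indicator hSm : Measurable (({y : YS Γ d | ‖y.1⁻¹ • z‖ ≤ C} ∩ GW Γ G r0 2 R).indicator (1 : YS Γ d → ENNReal))) γ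
        exact this.aemeasurable)]
      refine Eventually.of_forall fun p => ?_
      exact indicator_of_notMem (fun h => hγ (by rw [Set.Finite.mem_toFinset]; exact h.1)) _
    rw [tsum_eq_sum h3]
    refine ENNReal.sum_lt_top.mpr fun γ _ => ?_
    refine lt_of_le_of_lt ?_ hvol
    have h4 : ∀ p : P d, ({y : YS Γ d | ‖y.1⁻¹ • z‖ ≤ C} ∩ GW Γ G r0 2 R).indicator (1 : YS Γ d → ENNReal) ((γ, p) : YS Γ d) ≤
        {p : P d | ‖p.1‖ ≤ r0 ∧ |Ep G p| ≤ 2 * R ^ (-(1 / 4) : ℝ)}.indicator (1 : P d → ENNReal) p := by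
      intro p
      by_cases hp : ((γ, p) : YS Γ d) ∈ {y : YS Γ d | ‖y.1⁻¹ • z‖ ≤ C} ∩ GW Γ G r0 2 R
      · exact le_of_eq ((indicator_of_mem hp _).trans (indicator_of_mem (show p ∈ {p : P d | ‖p.1‖ ≤ r0 ∧ |Ep G p| ≤ 2 * R ^ (-(1 / 4) : ℝ)} from hp.2) (1 : P d → ENNReal)).symm)
      · exact (le_of_eq (indicator_of_notMem hp _)).trans zero_le
    exact (lintegral_mono h4).trans (lintegral_indicator_one_le _)
  have hpm : Measurable (fun y : YS Γ d => pF f y z) := by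
    refine ASAD_meas hms fun γ => ?_
    have h5 : Continuous (fun p : P d => f ((γ, p) : YS Γ d) (γ⁻¹ • z)) := (hfa.cont γ).comp (continuous_id.prodMk continuous_const)
    exact h5.measurable
  have i1 : IntegrableOn (fun y => v y * pF f y z) ({y : YS Γ d | ‖y.1⁻¹ • z‖ ≤ C} ∩ GW Γ G r0 2 R) (mY Γ d) := by
    have : IsFiniteMeasure ((mY Γ d).restrict ({y : YS Γ d | ‖y.1⁻¹ • z‖ ≤ C} ∩ GW Γ G r0 2 R)) := ⟨by rw [Measure.restrict_apply_univ]; exact hSf⟩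
    refine Integrable.of_bound (hv.meas.mul hpm).aestronglyMeasurable (b * m) ?_
    refine (ae_restrict_mem hSm).mono (fun q hq => ?_)
    have h2 := (hb q hq.2 z).1
    have h3 := hvb q
    show ‖v q * pF f q z‖ ≤ b * m
    rw [norm_mul]
    exact mul_le_mul h3 h2 (norm_nonneg _) ((norm_nonneg _).trans h3)
  unfold mW
  refine i1.of_forall_sdiff_eq_zero hGW (fun q hq => ?_)
  by_contra h0
  have h1 : pF f q z ≠ 0 := fun h => h0 (by show v q * pF f q z = 0; rw [h, mul_zero])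
  exact hq.2 ⟨(hb q hq.1 z).2 h1, hq.1⟩

/-- the numbers -/
theorem ASAD_num {R : ℝ} (hR : (3 : ℝ) ^ 40 ≤ R) (t x y : ℝ) (ht : t ≤ 1) (hx : x ≤ -(3 / 8)) (hy : y ≤ -(3 / 8)) :
    R ^ (-(1 / 4) : ℝ) + R ^ y + t * R ^ x ≤ R ^ (-(9 / 40) : ℝ) := by
  have hR0 : 0 < R := lt_of_lt_of_le (by norm_num) hR
  have hR1 : 1 ≤ R := le_trans (by norm_num) hR
  have h8 : 3 ≤ R ^ (1 / 40 : ℝ) := by
    have h1 : (3 : ℝ) = ((3 : ℝ) ^ 40) ^ (1 / 40 : ℝ) := by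
      rw [← Real.rpow_natCast, ← Real.rpow_mul (by norm_num)]
      norm_num
    rw [h1]
    exact Real.rpow_le_rpow (by norm_num) hR (by norm_num)
  have h4 : R ^ (-(9 / 40) : ℝ) = R ^ (1 / 40 : ℝ) * R ^ (-(1 / 4) : ℝ) := by
    rw [← Real.rpow_add hR0]; norm_num
  have h5 : 0 < R ^ (-(1 / 4) : ℝ) := Real.rpow_pos_of_pos hR0 _
  have h6 : R ^ x ≤ R ^ (-(1 / 4) : ℝ) := Real.rpow_le_rpow_of_exponent_le hR1 (by linarith)
  have h7 : R ^ y ≤ R ^ (-(1 / 4) : ℝ) := Real.rpow_le_rpow_of_exponent_le hR1 (by linarith)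
  have h9 : t * R ^ x ≤ R ^ (-(1 / 4) : ℝ) := by
    calc t * R ^ x ≤ 1 * R ^ x := mul_le_mul_of_nonneg_right ht (Real.rpow_nonneg hR0.le _)
      _ ≤ R ^ (-(1 / 4) : ℝ) := by rw [one_mul]; exact h6
  rw [h4]
  nlinarith

theorem ASAD_proof (hAEND : AEND_stmt) (hAFDD : AFDD_stmt) (hAFBD : AFBD_stmt) (hAFMD : AFMD_stmt) (hAFRD : AFRD_stmt)
    (hAQAD : AQAD_stmt) (hAMVI : AMVI_stmt) (hADMD : ADMD_stmt) (hASGF : ASGF_stmt) : ASAD_stmt := by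
  intro d Γ _ _ K k B r0 χ hFdK hPU
  obtain ⟨CF, hCF, HF⟩ := hAFBD d Γ K k B r0 hFdK
  obtain ⟨CM, hCM, HM⟩ := hAFMD d Γ K k B r0 χ hFdK hPU
  obtain ⟨CD, hCD, HD⟩ := hAFDD d Γ K k B r0 χ hFdK hPU
  obtain ⟨CR, hCR, HR⟩ := hAFRD d Γ K k B r0 hFdK
  have hCC : 1 ≤ 16 * (1 + CF) * CM + CD := by
    have : 0 ≤ 16 * (1 + CF) * CM := by positivity
    linarith
  refine ⟨16 * (1 + CF) * CM + CD, hCC, ?_⟩
  intro ch ζ ζ1 hch hζ0 hζζ1 hCζ
  have hζ1 : 0 < ζ1 := lt_of_lt_of_le hζ0 hζζ1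
  have hCM0 : 0 < CM := by linarith
  have hCF0 : 0 < CF := by linarith
  have hp3 : 0 < CM * ζ1 := by positivity
  have hp1 : 0 ≤ CF * (CM * ζ1) := by positivity
  have hq1 : 16 * (1 + CF) * CM * ζ1 + CD * ζ1 ≤ 1 := by
    have : (16 * (1 + CF) * CM + CD) * ζ1 = 16 * (1 + CF) * CM * ζ1 + CD * ζ1 := by ring
    linarith
  have hq2 : 0 ≤ CD * ζ1 := by positivity
  have hq3 : 0 ≤ 16 * (1 + CF) * CM * ζ1 := by positivity
  have hCDζ : CD * ζ1 ≤ 1 := by linarith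
  have hexp : 16 * (CM * ζ1 + CF * (CM * ζ1)) ≤ 1 := by
    have : 16 * (CM * ζ1 + CF * (CM * ζ1)) = 16 * (1 + CF) * CM * ζ1 := by ring
    linarith
  have hζCM : ζ1 ≤ CM * ζ1 := by nlinarith
  have hζ16 : ζ1 ≤ 1 / 16 := by linarith
  obtain ⟨K1, R1, hR1, HF1⟩ := HF (CM * ζ1) hp3 (by linarith)
  obtain ⟨R2, hR2, HM1⟩ := HM ch K1 ζ ζ1 2 hch hζ0 hζζ1 (by linarith)
  obtain ⟨R3, hR3, HD1⟩ := HD ch ζ ζ1 hch hζ0 hζζ1 hCDζ
  obtain ⟨R4, hR4, HQ⟩ := hAQAD d Γ K k B r0 χ ch ζ hFdK hPU hch hζ0 (by linarith)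
  refine ⟨max (max (max R1 R2) (max R3 R4)) (max CR (3 ^ 40)), hCR.trans ((le_max_left CR ((3 : ℝ) ^ 40)).trans (le_max_right _ _)), ?_⟩
  intro R t G Φ hR hOK ht0 ht Λ F T hDm
  have hRa : R1 ≤ R := (le_max_left _ _).trans ((le_max_left _ _).trans ((le_max_left _ _).trans hR))
  have hRb : R2 ≤ R := (le_max_right _ _).trans ((le_max_left _ _).trans ((le_max_left _ _).trans hR))
  have hRc : R3 ≤ R := (le_max_left _ _).trans ((le_max_right _ _).trans ((le_max_left _ _).trans hR))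
  have hRd : R4 ≤ R := (le_max_right _ _).trans ((le_max_right _ _).trans ((le_max_left _ _).trans hR))
  have hRe : CR ≤ R := (le_max_left _ _).trans ((le_max_right _ _).trans hR)
  have hRf : (3 : ℝ) ^ 40 ≤ R := (le_max_right _ _).trans ((le_max_right _ _).trans hR)
  have hR0 : 0 < R := lt_of_lt_of_le (by norm_num) hRf
  have hR1' : 1 ≤ R := le_trans (by norm_num) hRf
  obtain ⟨-, -, -, -, hfin, -⟩ := hAMVI d Γ K k B G hFdK hOK.cls
  obtain ⟨-, -, hms, hli, hgw, hdm⟩ := hADMD d Γ K k B G hFdK hOK.cls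
  obtain ⟨hGW, -, hvol⟩ := hgw r0 2 R
  have hF : MeasurableSet F := (hdm Λ F T hDm).1
  have hfs : ∀ r : ℝ, (SG Γ d r).Finite := fun r => (hASGF d Γ K hFdK r 0).1
  -- the families
  have hM := fun (s : ℝ) (hs : |s| ≤ 1) => HM1 R s G Φ hRb hOK hs
  have hM0 := hM 0 (by rw [abs_zero]; exact zero_le_one)
  have part1 : ∀ v, FP Λ T v → nn G F (sF G r0 R (fP G Φ χ ch ζ ζ1 R t) v) ≤ (1 + R ^ (-(9 / 40) : ℝ)) ^ 2 * nP G r0 T 2 R v := by
    intro v hv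
    have hnP : 0 ≤ nP G r0 T 2 R v := integral_nonneg (fun p => by positivity)
    set N : ℝ := Real.sqrt (nP G r0 T 2 R v) with hN
    have hN0 : 0 ≤ N := Real.sqrt_nonneg _
    have hN2 : N ^ 2 = nP G r0 T 2 R v := Real.sq_sqrt hnP
    obtain ⟨b, g1, g2, g3, g4, g5, g6⟩ := HD1 R G Φ hRc hOK Λ F T hDm v hv
    have hsub : Icc (0 : ℝ) t ⊆ Icc 0 1 := Icc_subset_Icc_right ht
    set ε : ℝ := R ^ (3 * (d : ℝ) / 4 - 1 / 2 + CM * ζ1) * R ^ (-(3 * (d : ℝ) / 4) + CF * (CM * ζ1)) * N with hε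
    have hε0 : 0 ≤ ε := by positivity
    have hEr : ∀ s ∈ Icc 0 t, nn G F (fun z => -(Complex.I * sF G r0 R (fE G Φ χ ch ζ ζ1 R s) v z)) ≤ ε ^ 2 := by
      intro s hs
      have hs' : |s| ≤ 1 := by rw [abs_of_nonneg hs.1]; exact hs.2.trans ht
      have k1 := (HF1 R (R ^ (3 * (d : ℝ) / 4 - 1 / 2 + CM * ζ1)) s G Φ (fE G Φ χ ch ζ ζ1 R s) hRa hOK (by positivity) hs' (hM s hs').2.1 Λ F T hDm).1 v hv
      have k2 : nn G F (fun z => -(Complex.I * sF G r0 R (fE G Φ χ ch ζ ζ1 R s) v z)) = nn G F (sF G r0 R (fE G Φ χ ch ζ ζ1 R s) v) := by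
        unfold nn
        refine integral_congr_ae (Eventually.of_forall fun z => ?_)
        show ‖-(Complex.I * sF G r0 R (fE G Φ χ ch ζ ζ1 R s) v z)‖ ^ 2 = ‖sF G r0 R (fE G Φ χ ch ζ ζ1 R s) v z‖ ^ 2
        rw [norm_neg, norm_mul, Complex.norm_I, one_mul]
      rw [k2]
      refine k1.trans (le_of_eq ?_)
      rw [hε, mul_pow _ N, hN2]
    -- energy estimate
    have hen := hAEND d Γ K k B G hFdK hOK.cls Λ F T hDm R t ε b (fun s z => sF G r0 R (fP G Φ χ ch ζ ζ1 R s) v z)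
      (fun s z => -(Complex.I * sF G r0 R (fE G Φ χ ch ζ ζ1 R s) v z)) hR1' ht0 hε0
      (fun s hs => ⟨(g1 s (hsub hs)).1, (g1 s (hsub hs)).2.1, ⟨(continuous_const.mul (g1 s (hsub hs)).2.2.cont).neg, fun γ hγ z => by
        rw [(g1 s (hsub hs)).2.2.inv γ hγ z], by
        obtain ⟨b', hb'⟩ := (g1 s (hsub hs)).2.2.supp
        exact ⟨b', fun z hz h0 => hb' z hz (fun h1 => h0 (by rw [h1]; simp))⟩⟩, hEr s hs⟩)
      (fun s hs z hz h0 => g2 s (hsub hs) z hz (by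
        rcases h0 with h0 | h0
        · exact Or.inl h0
        · exact Or.inr (fun h1 => h0 (by rw [h1]; simp))))
      (g3.mono (prod_mono hsub (Subset.refl _))) (g4.mono (prod_mono hsub (Subset.refl _)))
      ((continuousOn_const.mul (g5.mono (prod_mono hsub (Subset.refl _)))).neg) (fun s hs z => g6 s (hsub hs) z)
    -- the initial value
    have hab0 : |(0 : ℝ)| ≤ 1 := by rw [abs_zero]; exact zero_le_one
    have hfr0 := HR K1 (CM * ζ1) (R ^ (-2 : ℝ)) R 0 G Φ (fun y w => fP G Φ χ ch ζ ζ1 R 0 y w - fG G χ ch ζ R y w) hRe hOK hp3 (by linarith) (by positivity) hab0 hM0.2.2.2.1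
    have hfrG := HR K1 (CM * ζ1) (R ^ (3 * (d : ℝ) / 4 + CM * ζ1)) R 0 G Φ (fG G χ ch ζ R) hRe hOK hp3 (by linarith) (by positivity) hab0 hM0.2.2.1
    have hFH0 : FH Λ F (sF G r0 R (fun y w => fP G Φ χ ch ζ ζ1 R 0 y w - fG G χ ch ζ R y w) v) := (hfr0.2.2 Λ F T hDm).1 v hv
    have hFHG : FH Λ F (sF G r0 R (fG G χ ch ζ R) v) := (hfrG.2.2 Λ F T hDm).1 v hv
    have hQs : Qs G r0 χ ch ζ R v = sF G r0 R (fG G χ ch ζ R) v := by
      funext z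
      unfold Qs sF
      simp only [hM0.2.2.2.2.2]
    have hw0 : (fun z => sF G r0 R (fP G Φ χ ch ζ ζ1 R 0) v z) = fun z => sF G r0 R (fG G χ ch ζ R) v z +
        sF G r0 R (fun y w => fP G Φ χ ch ζ ζ1 R 0 y w - fG G χ ch ζ R y w) v z := by
      funext z
      have i1 := ASAD_int (C := CR) hfs hms hli hGW hvol hM0.2.2.1 (by positivity) (fun y hy z => ⟨(hfrG.1 y hy z).1, fun h => ((hfrG.1 y hy z).2 h).1⟩) hv z
      have i2 := ASAD_int (C := CR) hfs hms hli hGW hvol hM0.2.2.2.1 (by positivity) (fun y hy z => ⟨(hfr0.1 y hy z).1, fun h => ((hfr0.1 y hy z).2 h).1⟩) hv z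
      unfold sF
      rw [← integral_add i1 i2]
      refine integral_congr_ae (Eventually.of_forall fun q => ?_)
      show v q * pF (fP G Φ χ ch ζ ζ1 R 0) q z = v q * pF (fG G χ ch ζ R) q z + v q * pF (fun y w => fP G Φ χ ch ζ ζ1 R 0 y w - fG G χ ch ζ R y w) q z
      unfold pF
      ring
    have hone : 1 ≤ 1 + R ^ (-(1 / 4) : ℝ) := by
      have := Real.rpow_nonneg hR0.le (-(1 / 4) : ℝ)
      linarith
    have hq1 : Real.sqrt (nn G F (sF G r0 R (fG G χ ch ζ R) v)) ≤ (1 + R ^ (-(1 / 4) : ℝ)) * N := by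
      rw [← hQs]
      calc Real.sqrt (nn G F (Qs G r0 χ ch ζ R v)) ≤ Real.sqrt ((1 + R ^ (-(1 / 4) : ℝ)) ^ 2 * nP G r0 T 2 R v) :=
            Real.sqrt_le_sqrt (((HQ R G hRd hOK.cls Λ F T hDm).2 v hv).trans (mul_le_mul_of_nonneg_right (by nlinarith) hnP))
        _ = (1 + R ^ (-(1 / 4) : ℝ)) * N := by rw [Real.sqrt_mul (by positivity), Real.sqrt_sq (by linarith)]
    have hq2 : Real.sqrt (nn G F (sF G r0 R (fun y w => fP G Φ χ ch ζ ζ1 R 0 y w - fG G χ ch ζ R y w) v)) ≤ R ^ (-2 : ℝ) * R ^ (-(3 * (d : ℝ) / 4) + CF * (CM * ζ1)) * N := by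
      have k1 := (HF1 R (R ^ (-2 : ℝ)) 0 G Φ (fun y w => fP G Φ χ ch ζ ζ1 R 0 y w - fG G χ ch ζ R y w) hRa hOK (by positivity) hab0 hM0.2.2.2.1 Λ F T hDm).1 v hv
      have k3 : 0 ≤ R ^ (-2 : ℝ) * R ^ (-(3 * (d : ℝ) / 4) + CF * (CM * ζ1)) := by positivity
      rw [← hN2, ← mul_pow] at k1
      calc Real.sqrt (nn G F (sF G r0 R (fun y w => fP G Φ χ ch ζ ζ1 R 0 y w - fG G χ ch ζ R y w) v)) ≤
            Real.sqrt ((R ^ (-2 : ℝ) * R ^ (-(3 * (d : ℝ) / 4) + CF * (CM * ζ1)) * N) ^ 2) := Real.sqrt_le_sqrt k1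
        _ = R ^ (-2 : ℝ) * R ^ (-(3 * (d : ℝ) / 4) + CF * (CM * ζ1)) * N := Real.sqrt_sq (mul_nonneg k3 hN0)
    have hq3 := ASAD_mink hfin hF hFHG hFH0
    rw [← hw0] at hq3
    have hfin2 : Real.sqrt (nn G F (fun z => sF G r0 R (fP G Φ χ ch ζ ζ1 R t) v z)) ≤ (1 + R ^ (-(9 / 40) : ℝ)) * N := by
      have k1 : R ^ (-2 : ℝ) * R ^ (-(3 * (d : ℝ) / 4) + CF * (CM * ζ1)) = R ^ (-2 + (-(3 * (d : ℝ) / 4) + CF * (CM * ζ1))) := (Real.rpow_add hR0 _ _).symm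
      have k2 : R ^ (3 * (d : ℝ) / 4 - 1 / 2 + CM * ζ1) * R ^ (-(3 * (d : ℝ) / 4) + CF * (CM * ζ1)) = R ^ (3 * (d : ℝ) / 4 - 1 / 2 + CM * ζ1 + (-(3 * (d : ℝ) / 4) + CF * (CM * ζ1))) :=
        (Real.rpow_add hR0 _ _).symm
      have hd0 : 0 ≤ (d : ℝ) := Nat.cast_nonneg d
      have k3 := ASAD_num hRf t (3 * (d : ℝ) / 4 - 1 / 2 + CM * ζ1 + (-(3 * (d : ℝ) / 4) + CF * (CM * ζ1))) (-2 + (-(3 * (d : ℝ) / 4) + CF * (CM * ζ1))) ht (by linarith) (by linarith)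
      rw [← k1, ← k2] at k3
      have k4 := mul_le_mul_of_nonneg_right k3 hN0
      refine hen.trans ?_
      have k5 := hq3.trans (add_le_add hq1 hq2)
      refine (add_le_add_left k5 _).trans ?_
      rw [hε]
      nlinarith
    rw [← hN2, ← mul_pow]
    have hnn : 0 ≤ nn G F (sF G r0 R (fP G Φ χ ch ζ ζ1 R t) v) := integral_nonneg (fun z => by positivity)
    rw [← Real.sq_sqrt hnn]
    exact pow_le_pow_left₀ (Real.sqrt_nonneg _) hfin2 2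
  refine ⟨part1, ?_⟩
  intro φ hφ
  have htabs : |t| ≤ 1 := by rw [abs_of_nonneg ht0]; exact ht
  have hfr := HR K1 (CM * ζ1) (R ^ (3 * (d : ℝ) / 4 + CM * ζ1)) R t G Φ (fP G Φ χ ch ζ ζ1 R t) hRe hOK hp3 (by linarith) (by positivity) htabs (hM t htabs).1
  obtain ⟨hFHs, hFPa, hdual⟩ := hfr.2.2 Λ F T hDm
  set Q : YS Γ d → ℂ := aF G r0 R (fP G Φ χ ch ζ ζ1 R t) φ with hQ
  have hPF : FP Λ T Q := hFPa φ hφ
  have hSP : FH Λ F (sF G r0 R (fP G Φ χ ch ζ ζ1 R t) Q) := hFHs Q hPF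
  have hd := hdual φ Q hφ hPF
  have hx0 : 0 ≤ nP G r0 T 2 R Q := integral_nonneg (fun p => by positivity)
  have hφ0 : 0 ≤ nn G F φ := integral_nonneg (fun z => by positivity)
  have e4 : ∫ p in DT d T ∩ GW Γ G r0 2 R, Q p * conj (Q p) ∂mY Γ d = ((nP G r0 T 2 R Q : ℝ) : ℂ) := by
    rw [nP, ← integral_complex_ofReal]
    congr 1
    funext z
    rw [Complex.mul_conj, Complex.normSq_eq_norm_sq]
  rw [← hQ, e4] at hd
  have e5 : nP G r0 T 2 R Q ≤ Real.sqrt (nn G F φ) * Real.sqrt (nn G F (sF G r0 R (fP G Φ χ ch ζ ζ1 R t) Q)) := by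
    have e6 : nP G r0 T 2 R Q = ‖((nP G r0 T 2 R Q : ℝ) : ℂ)‖ := by rw [Complex.norm_real, Real.norm_of_nonneg hx0]
    rw [e6, hd]
    refine (norm_integral_le_integral_norm _).trans ?_
    have e7 : ∀ z, ‖φ z * conj (sF G r0 R (fP G Φ χ ch ζ ζ1 R t) Q z)‖ = ‖φ z‖ * ‖sF G r0 R (fP G Φ χ ch ζ ζ1 R t) Q z‖ := by
      intro z
      rw [norm_mul, RCLike.norm_conj]
    simp only [e7]
    exact ASAD_csn hfin hF hφ hSP
  have e8 : Real.sqrt (nn G F (sF G r0 R (fP G Φ χ ch ζ ζ1 R t) Q)) ≤ (1 + R ^ (-(9 / 40) : ℝ)) * Real.sqrt (nP G r0 T 2 R Q) := by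
    have k1 := part1 Q hPF
    have k2 : 0 ≤ 1 + R ^ (-(9 / 40) : ℝ) := by positivity
    calc Real.sqrt (nn G F (sF G r0 R (fP G Φ χ ch ζ ζ1 R t) Q)) ≤ Real.sqrt ((1 + R ^ (-(9 / 40) : ℝ)) ^ 2 * nP G r0 T 2 R Q) := Real.sqrt_le_sqrt k1
      _ = (1 + R ^ (-(9 / 40) : ℝ)) * Real.sqrt (nP G r0 T 2 R Q) := by rw [Real.sqrt_mul (by positivity), Real.sqrt_sq k2]
  set x : ℝ := Real.sqrt (nP G r0 T 2 R Q) with hx
  have hxx : x ^ 2 = nP G r0 T 2 R Q := Real.sq_sqrt hx0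
  have hxn : 0 ≤ x := Real.sqrt_nonneg _
  set y : ℝ := Real.sqrt (nn G F φ) with hy
  have hyy : y ^ 2 = nn G F φ := Real.sq_sqrt hφ0
  have hyn : 0 ≤ y := Real.sqrt_nonneg _
  set c : ℝ := 1 + R ^ (-(9 / 40) : ℝ) with hc
  have hcn : 0 ≤ c := by positivity
  have e9 : x ^ 2 ≤ (c * y) * x := by
    rw [hxx]
    refine e5.trans ((mul_le_mul_of_nonneg_left e8 hyn).trans (le_of_eq ?_))
    ring
  have e10 : x ≤ c * y := by
    rcases hxn.eq_or_lt with h | h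
    · rw [← h]; positivity
    · nlinarith
  rw [← hxx, ← hyy, ← mul_pow]
  exact pow_le_pow_left₀ hxn e10 2

end

end Pool.Agent.VD
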