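import Pool.Agent.helper47.VD.SpecA1b

/-!
# Project VD (MP_07c750_an), block A1, row AISD: the near isometry
-/

set_option autoImplicit false

open scoped ContDiff Topology InnerProductSpace ComplexConjugate ENNReal
open MeasureTheory Filter Set

namespace Pool.Agent.VD

open Pool.Agent.VQ (CH)

noncomputable section

theorem AISD_proof (h1 : AISP_stmt) (h2 : AUNK_stmt) (h3 : AWSM_stmt) (h4 : AMYS_stmt) (h5 : AQSB_stmt) (h6 : AFHB_stmt)
    (h7 : AMVI_stmt) : AISD_stmt := by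
  intro d Γ _ _ K k B r0 χ ch ζ hFdK hPU hch hζ hζ8
  obtain ⟨R1, hR1, H1⟩ := h1 d Γ K k B ch ζ hFdK hch hζ hζ8
  obtain ⟨R2, hR2, H2⟩ := h3 d Γ K r0 χ ch ζ hFdK hPU hch hζ hζ8
  obtain ⟨R3, hR3, H3⟩ := h5 d Γ K k B r0 χ ch ζ hFdK hPU hch hζ hζ8
  refine ⟨max R1 (max R2 R3), hR1.trans (le_max_left _ _), ?_⟩
  intro R G hR hCls Λ F T hDm φ hφ
  have hRa : R1 ≤ R := (le_max_left _ _).trans hR
  have hRb : R2 ≤ R := (le_max_left _ _).trans ((le_max_right _ _).trans hR)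
  have hRc : R3 ≤ R := (le_max_right _ _).trans ((le_max_right _ _).trans hR)
  have hR1' : 1 ≤ R := hR1.trans hRa
  have hcount : Countable Γ := (h7 d Γ K k B G hFdK hCls).1
  obtain ⟨-, -, -, -, hsum, -⟩ := h4 d Γ
  have hQm : Measurable (QF (Γ := Γ) G χ ch ζ R φ) := (H3 R G hRc hCls Λ F T hDm φ hφ).1.meas
  have hfm : Measurable (fun y : YS Γ d => ‖QF G χ ch ζ R φ y‖ₑ ^ 2) := (hQm.enorm).pow_const 2
  have hch' : Continuous (b0 ch ζ R : V d → ℝ) := by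
    unfold b0
    exact (Real.continuous_exp.comp (((continuous_const.mul (continuous_norm.pow 2)).div_const 2).neg)).mul
      (hch.smooth.continuous.comp (continuous_const.mul (continuous_norm.pow 2)))
  have hkm : Measurable (fun v : V d => ENNReal.ofReal (b0 ch ζ R v ^ 2)) := (hch'.pow 2).measurable.ennreal_ofReal
  have hcm : Measurable (fun x : V d => ENNReal.ofReal (χ x ^ 2 * (bR d ch ζ R)⁻¹)) :=
    ((hPU.smooth.continuous.pow 2).mul continuous_const).measurable.ennreal_ofReal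
  have hφm : Measurable (fun z : V d => ‖φ z‖ₑ ^ 2) := (hφ.cont.enorm.measurable).pow_const 2
  have e1 : ∫⁻ y in DT d T, ‖QF G χ ch ζ R φ y‖ₑ ^ 2 ∂mY Γ d =
      ∫⁻ z in F, (∑' γ : Γ, ∫⁻ x : V d, ENNReal.ofReal (χ x ^ 2 * (bR d ch ζ R)⁻¹) * ENNReal.ofReal (b0 ch ζ R (γ⁻¹ • z - x) ^ 2)) * ‖φ z‖ₑ ^ 2 ∂mv G := by
    rw [hsum T _ hfm, ← h2 d Γ K k B G hFdK hCls Λ F T hDm (fun x => ENNReal.ofReal (χ x ^ 2 * (bR d ch ζ R)⁻¹)) (fun v => ENNReal.ofReal (b0 ch ζ R v ^ 2))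
      (fun z => ‖φ z‖ₑ ^ 2) hcm hkm hφm (fun κ hκ z => by rw [hφ.inv κ hκ z])]
    refine tsum_congr fun γ => lintegral_congr fun x => ?_
    exact H1 R G hRa hCls χ φ γ x hφ.cont
  have e2 : ∫⁻ z in F, ‖φ z‖ₑ ^ 2 ∂mv G = ENNReal.ofReal (nn G F φ) := ((h6 d Γ K k B G hFdK hCls Λ F T hDm).1 φ hφ).2.2.2.2.2
  have hr : R ^ (-(1 / 4) : ℝ) ≤ 1 := Real.rpow_le_one_of_one_le_of_nonpos hR1' (by norm_num)
  have hr0 : 0 ≤ R ^ (-(1 / 4) : ℝ) := Real.rpow_nonneg (by linarith) _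
  rw [e1]
  constructor
  · rw [ENNReal.ofReal_mul (by linarith), ← e2, ← lintegral_const_mul _ hφm]
    exact lintegral_mono fun z => mul_le_mul_left (H2 R hRb z).2 _
  · rw [ENNReal.ofReal_mul (by linarith), ← e2, ← lintegral_const_mul _ hφm]
    exact lintegral_mono fun z => mul_le_mul_left (H2 R hRb z).1 _

end

end Pool.Agent.VD
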