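import Pool.Agent.helper47.VD.SpecA1b

/-!
# Project VD (MP_07c750_an), block A1, row AISP: Plancherel for a fixed chart and base point
-/

set_option autoImplicit false

open scoped ContDiff Topology InnerProductSpace ComplexConjugate ENNReal
open MeasureTheory Filter Set

namespace Pool.Agent.VD

open Pool.Agent.VQ (CH)

noncomputable section

theorem AISP_en (z : ℂ) : ‖z‖ₑ ^ 2 = ENNReal.ofReal (‖z‖ ^ 2) := by
  rw [← ofReal_norm, ENNReal.ofReal_pow (norm_nonneg z)]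

theorem AISP_proof (h1 : AQFT_stmt) (h2 : APLD_stmt) (h3 : ABRD_stmt) (h4 : AMVI_stmt) : AISP_stmt := by
  intro d Γ _ _ K k B ch ζ hFdK hch hζ hζ8
  obtain ⟨R0, hR0, H⟩ := h3 d ch ζ hch hζ hζ8
  refine ⟨R0, hR0, ?_⟩
  intro R G hR hCls χ φ γ x hφ
  obtain ⟨hbs, hbsupp, -, -, hbR, -, -, hcb, hcR, -⟩ := H R hR
  have hRpos : 0 < R := by linarith
  obtain ⟨-, hds, hdp, -, -, -, -, -, -⟩ := h4 d Γ K k B G hFdK hCls
  obtain ⟨q1, q2, -, q4⟩ := h1 d Γ K k B G χ ch ζ R φ γ hFdK hCls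
  have hb0c : Continuous (fun w : V d => b0 ch ζ R (w - x)) := hbs.continuous.comp (continuous_id.sub continuous_const)
  set h : V d → ℂ := fun w => uf G φ γ w * ((b0 ch ζ R (w - x) : ℝ) : ℂ) with hh
  have hhc : Continuous h := (q2 hφ).mul (Complex.continuous_ofReal.comp hb0c)
  have hhs : HasCompactSupport h := by
    refine HasCompactSupport.intro (isCompact_closedBall x (R ^ (-(1 / 2) + ζ))) fun w hw => ?_
    show uf G φ γ w * ((b0 ch ζ R (w - x) : ℝ) : ℂ) = 0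
    have : b0 ch ζ R (w - x) = 0 := by
      by_contra hne
      exact hw (by rw [Metric.mem_closedBall, dist_eq_norm]; exact hbsupp _ hne)
    rw [this, Complex.ofReal_zero, mul_zero]
  have hi1 : Integrable h := hhc.integrable_of_hasCompactSupport hhs
  have hi2 : MemLp h 2 := hhc.memLp_of_hasCompactSupport hhs
  obtain ⟨hFc, hPl⟩ := h2 d R h hRpos hi1 hi2
  have hsq : Integrable (fun w => ‖h w‖ ^ 2) := hi2.integrable_norm_pow (by norm_num)
  -- left side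
  have e1 : ∀ ξ : V d, ‖QF G χ ch ζ R φ ((γ, (x, ξ)) : YS Γ d)‖ₑ ^ 2 = ENNReal.ofReal ((cR d ch ζ R * χ x) ^ 2) * ‖FTR R h ξ‖ₑ ^ 2 := by
    intro ξ
    rw [q1 x ξ, AISP_en, AISP_en, ← ENNReal.ofReal_mul (sq_nonneg _)]
    congr 1
    rw [norm_mul, norm_mul, Complex.norm_real, Complex.norm_exp_ofReal_mul_I, mul_one, mul_pow, Real.norm_eq_abs, sq_abs]
  have hFm : Measurable (fun ξ : V d => ‖FTR R h ξ‖ₑ ^ 2) := (hFc.enorm.measurable).pow_const 2
  rw [lintegral_congr e1, lintegral_const_mul _ hFm, hPl, ← ENNReal.ofReal_mul (sq_nonneg _)]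
  -- right side
  have hdm : Measurable (fun w => ENNReal.ofReal (dens G w)) := hds.continuous.measurable.ennreal_ofReal
  have hgm : Measurable (fun w : V d => ENNReal.ofReal (b0 ch ζ R (w - x) ^ 2) * ‖φ (γ • w)‖ₑ ^ 2) := by
    refine ((hb0c.pow 2).measurable.ennreal_ofReal).mul ?_
    exact ((hφ.comp (hFdK.smooth γ).continuous).enorm.measurable).pow_const 2
  have e2 : ∫⁻ w, ENNReal.ofReal (b0 ch ζ R (w - x) ^ 2) * ‖φ (γ • w)‖ₑ ^ 2 ∂mv G = ENNReal.ofReal (∫ v : V d, ‖h v‖ ^ 2) := by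
    unfold mv
    rw [lintegral_withDensity_eq_lintegral_mul _ hdm hgm, ofReal_integral_eq_lintegral_ofReal hsq (Eventually.of_forall fun w => sq_nonneg _)]
    refine lintegral_congr fun w => ?_
    show ENNReal.ofReal (dens G w) * (ENNReal.ofReal (b0 ch ζ R (w - x) ^ 2) * ‖φ (γ • w)‖ₑ ^ 2) = ENNReal.ofReal (‖h w‖ ^ 2)
    rw [AISP_en, ← ENNReal.ofReal_mul (sq_nonneg _), ← ENNReal.ofReal_mul (hdp w).le]
    congr 1
    rw [hh]
    show dens G w * (b0 ch ζ R (w - x) ^ 2 * ‖φ (γ • w)‖ ^ 2) = ‖uf G φ γ w * ((b0 ch ζ R (w - x) : ℝ) : ℂ)‖ ^ 2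
    rw [norm_mul, mul_pow, q4 w, Complex.norm_real, Real.norm_eq_abs, sq_abs]
    ring
  rw [e2, ← ENNReal.ofReal_mul (mul_nonneg (sq_nonneg _) (inv_pos.mpr hbR).le)]
  congr 1
  have hπ : 0 < Real.pi := Real.pi_pos
  have e3 : cR d ch ζ R ^ 2 * (2 * Real.pi / R) ^ d = (bR d ch ζ R)⁻¹ := by
    have e4 : (2 * Real.pi / R) ^ d = ((R / (2 * Real.pi)) ^ d)⁻¹ := by
      rw [← inv_pow, inv_div]
    rw [e4, ← hcb, mul_inv, ← mul_assoc, mul_inv_cancel₀ (pow_pos hcR 2).ne', one_mul]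
  rw [← e3]
  ring

end

end Pool.Agent.VD
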