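import Pool.Agent.helper47.VD.SpecA1b

/-!
# Project VD (MP_07c750_an), block A1, row AQFT: the packet coefficients are a Fourier transform
-/

set_option autoImplicit false

open scoped ContDiff Topology InnerProductSpace ComplexConjugate ENNReal
open MeasureTheory Filter Set

namespace Pool.Agent.VD

open Pool.Agent.VQ (CH)

noncomputable section

theorem AQFT_exp (a b c : ℝ) (h : c = a - b) :
    conj (Complex.exp ((c : ℂ) * Complex.I)) = Complex.exp ((b : ℂ) * Complex.I) * Complex.exp (-((a : ℂ) * Complex.I)) := by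
  rw [← Complex.exp_conj, map_mul, Complex.conj_ofReal, Complex.conj_I, ← Complex.exp_add]
  congr 1
  rw [h, Complex.ofReal_sub]
  ring

theorem AQFT_emb {d : ℕ} {Γ : Type} [Group Γ] [MulAction Γ (V d)] (h : ∀ γ : Γ, ContDiff ℝ ∞ fun x : V d => γ • x) (γ : Γ) :
    MeasurableEmbedding (fun x : V d => γ • x) := by
  let e : V d ≃ₜ V d := ⟨⟨fun x => γ • x, fun x => γ⁻¹ • x, fun x => inv_smul_smul γ x, fun x => smul_inv_smul γ x⟩, (h γ).continuous, (h γ⁻¹).continuous⟩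
  exact e.measurableEmbedding

theorem AQFT_proof (h1 : AMVI_stmt) : AQFT_stmt := by
  intro d Γ _ _ K k B G χ ch ζ R φ γ hFdK hCls
  obtain ⟨-, hds, hdp, -, -, hmp, -, hint, -⟩ := h1 d Γ K k B G hFdK hCls
  have hemb := AQFT_emb hFdK.smooth γ
  refine ⟨?_, ?_, ?_, ?_⟩
  · intro x ξ
    unfold QF
    have e1 : ∫ z, φ z * conj (Gp G χ ch ζ R ((γ, (x, ξ)) : YS Γ d) z) ∂mv G = ∫ w, φ (γ • w) * conj (Gp G χ ch ζ R ((γ, (x, ξ)) : YS Γ d) (γ • w)) ∂mv G :=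
      ((hmp γ).integral_comp hemb (fun z => φ z * conj (Gp G χ ch ζ R ((γ, (x, ξ)) : YS Γ d) z))).symm
    rw [e1, hint ℂ]
    unfold FTR
    rw [← integral_const_mul]
    refine integral_congr_ae (Eventually.of_forall fun w => ?_)
    show dens G w • (φ (γ • w) * conj (((χ x : ℝ) : ℂ) * pkt G ch ζ R (x, ξ) (γ⁻¹ • γ • w))) = _
    rw [inv_smul_smul]
    unfold pkt uf
    show dens G w • (φ (γ • w) * conj (((χ x : ℝ) : ℂ) * (((cR d ch ζ R * b0 ch ζ R (w - x) / Real.sqrt (dens G w) : ℝ) : ℂ) * Complex.exp (((R * ⟪ξ, w - x⟫_ℝ : ℝ) : ℂ) * Complex.I)))) =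
      ((cR d ch ζ R * χ x : ℝ) : ℂ) * Complex.exp (((R * ⟪ξ, x⟫_ℝ : ℝ) : ℂ) * Complex.I) * (φ (γ • w) * ((Real.sqrt (dens G w) : ℝ) : ℂ) * ((b0 ch ζ R (w - x) : ℝ) : ℂ) * Complex.exp (-(((R * ⟪ξ, w⟫_ℝ : ℝ) : ℂ) * Complex.I)))
    have e2 := AQFT_exp (R * ⟪ξ, w⟫_ℝ) (R * ⟪ξ, x⟫_ℝ) (R * ⟪ξ, w - x⟫_ℝ) (by rw [inner_sub_right]; ring)
    rw [map_mul, map_mul, Complex.conj_ofReal, Complex.conj_ofReal, e2]
    have hs : Real.sqrt (dens G w) * Real.sqrt (dens G w) = dens G w := Real.mul_self_sqrt (hdp w).le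
    have hs0 : Real.sqrt (dens G w) ≠ 0 := (Real.sqrt_pos.mpr (hdp w)).ne'
    have hs0' : ((Real.sqrt (dens G w) : ℝ) : ℂ) ≠ 0 := Complex.ofReal_ne_zero.mpr hs0
    have e3 : ((dens G w : ℝ) : ℂ) = ((Real.sqrt (dens G w) : ℝ) : ℂ) * ((Real.sqrt (dens G w) : ℝ) : ℂ) := by
      rw [← Complex.ofReal_mul, hs]
    rw [Complex.real_smul, e3, Complex.ofReal_div, Complex.ofReal_mul, Complex.ofReal_mul]
    field_simp
    rw [Complex.ofReal_mul]
    ring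
  · intro hφ
    unfold uf
    exact (hφ.comp (hFdK.smooth γ).continuous).mul (Complex.continuous_ofReal.comp (Real.continuous_sqrt.comp hds.continuous))
  · intro hφ
    unfold uf
    have e1 : ContDiff ℝ 2 (fun w : V d => γ • w) := (hFdK.smooth γ).of_le (show ((2 : ℕ∞) : WithTop ℕ∞) ≤ ((⊤ : ℕ∞) : WithTop ℕ∞) from WithTop.coe_le_coe.mpr le_top)
    have e2 : ContDiff ℝ 2 (dens G) := hds.of_le (show ((2 : ℕ∞) : WithTop ℕ∞) ≤ ((⊤ : ℕ∞) : WithTop ℕ∞) from WithTop.coe_le_coe.mpr le_top)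
    have e3 : ContDiff ℝ 2 (fun w => Real.sqrt (dens G w)) := e2.sqrt (fun w => (hdp w).ne')
    exact (hφ.comp e1).mul (Complex.ofRealCLM.contDiff.comp e3)
  · intro w
    unfold uf
    rw [norm_mul, mul_pow, Complex.norm_real, Real.norm_eq_abs, sq_abs, Real.sq_sqrt (hdp w).le]

end

end Pool.Agent.VD
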