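import Pool.Agent.helper84.VD.SpecB3

/-!
# Project VD (MP_07c750_an), block B3, row CHB: unit step vertices of a chain of big steps
-/

set_option autoImplicit false

open scoped ContDiff Topology InnerProductSpace ENNReal
open MeasureTheory Filter Set

namespace Pool.Agent.VD

noncomputable section

theorem CHB_rc {d : ℕ} {Γ : Type} [Group Γ] [MulAction Γ (V d)] (G : V d → V d →L[ℝ] V d) (Φ : ℝ → P d → P d) (r0 r R : ℝ) (k : ℕ) :
    ∀ y y' : YS Γ d, RC G Φ r0 r R k y y' → ∃ x : ℕ → YS Γ d, x 0 = y ∧ x (k + 1) = y' ∧ ∀ i < k + 1, St G Φ r0 r R (x i) (x (i + 1)) := by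
  induction k with
  | zero =>
    intro y y' h
    refine ⟨fun i => if i = 0 then y else y', rfl, rfl, ?_⟩
    intro i hi
    have hi0 : i = 0 := by omega
    subst hi0
    exact h
  | succ k ih =>
    intro y y' h
    obtain ⟨z, hz1, hz2⟩ := h
    obtain ⟨x', hx0, hx1, hx2⟩ := ih z y' hz2
    refine ⟨fun i => Nat.casesOn i y x', rfl, hx1, ?_⟩
    intro i hi
    rcases Nat.eq_zero_or_pos i with rfl | hpos
    · show St G Φ r0 r R y (x' 0)
      rw [hx0]
      exact hz1
    · obtain ⟨j, rfl⟩ : ∃ j, i = j + 1 := ⟨i - 1, by omega⟩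
      exact hx2 j (by omega)

theorem CHB_proof : CHB_stmt := by
  intro d Γ _ _ G Φ r0 A R N w
  induction N with
  | zero =>
    intro _
    refine ⟨fun _ => w 0, ?_, ?_⟩
    · intro j hj
      have hj0 : j = 0 := by omega
      rw [hj0]
    · intro i hi
      rw [Nat.zero_mul] at hi
      exact absurd hi (Nat.not_lt_zero _)
  | succ N ih =>
    intro hch
    obtain ⟨x, hx1, hx2⟩ := ih (fun j hj => hch j (by omega))
    obtain ⟨x', hy0, hy1, hy2⟩ := CHB_rc G Φ r0 (A.r R) R (A.n R) _ _ (hch N (by omega))
    have hN : x (N * (A.n R + 1)) = w N := hx1 N le_rfl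
    have hsucc : (N + 1) * (A.n R + 1) = N * (A.n R + 1) + (A.n R + 1) := Nat.succ_mul _ _
    generalize hM : N * (A.n R + 1) = M at *
    refine ⟨fun i => if i ≤ M then x i else x' (i - M), ?_, ?_⟩
    · intro j hj
      rcases Nat.lt_or_ge N j with hlt | hle
      · have hj' : j = N + 1 := by omega
        subst hj'
        show (if (N + 1) * (A.n R + 1) ≤ M then x ((N + 1) * (A.n R + 1)) else x' ((N + 1) * (A.n R + 1) - M)) = w (N + 1)
        rw [hsucc, if_neg (by omega), Nat.add_sub_cancel_left]
        exact hy1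
      · have hjM : j * (A.n R + 1) ≤ M := by
          rw [← hM]
          exact Nat.mul_le_mul_right _ hle
        show (if j * (A.n R + 1) ≤ M then x (j * (A.n R + 1)) else x' (j * (A.n R + 1) - M)) = w j
        rw [if_pos hjM]
        exact hx1 j hle
    · intro i hi
      rw [hsucc] at hi
      rcases Nat.lt_or_ge i M with hlt | hge
      · show St G Φ r0 (A.r R) R (if i ≤ M then x i else x' (i - M)) (if i + 1 ≤ M then x (i + 1) else x' (i + 1 - M))
        rw [if_pos hlt.le, if_pos (by omega)]
        exact hx2 i hlt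
      · have hstep := hy2 (i - M) (by omega)
        show St G Φ r0 (A.r R) R (if i ≤ M then x i else x' (i - M)) (if i + 1 ≤ M then x (i + 1) else x' (i + 1 - M))
        have e1 : i + 1 - M = i - M + 1 := by omega
        have e2 : (if i ≤ M then x i else x' (i - M)) = x' (i - M) := by
          rcases hge.eq_or_lt with heq | hlt
          · rw [if_pos (by omega), ← heq, Nat.sub_self, hy0]
            exact hN
          · rw [if_neg (by omega)]
        rw [e2, if_neg (by omega), e1]
        exact hstep

end

end Pool.Agent.VD
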