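import Pool.Agent.helper55.VD.SpecE0

/-!
# Project VD (MP_07c750_an), block E, row EAC: the commutator
-/

set_option autoImplicit false

open scoped ENNReal ComplexConjugate
open MeasureTheory Filter Set

namespace Pool.Agent.VDA

open Pool.Agent.VQ (PS KZ cmZ perZ)
open Pool.Agent.RPQ (IsOp)

noncomputable section

theorem EAC_mul {Γ : Type} [Group Γ] {Y : Type} [MeasurableSpace Y] [MulAction Γ Y] {H v : Y → ℂ} (hH : FB Γ H) (hv : FB Γ v) :
    FB Γ (fun x => H x * v x) := by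
  obtain ⟨B, hB⟩ := hH.bdd
  obtain ⟨B', hB'⟩ := hv.bdd
  refine ⟨hH.meas.mul hv.meas, ⟨B * B', fun y => ?_⟩, fun γ y => ?_⟩
  · rw [norm_mul]
    exact mul_le_mul (hB y) (hB' y) (norm_nonneg _) ((norm_nonneg _).trans (hB y))
  · show H (γ • y) * v (γ • y) = H y * v y
    rw [hH.inv, hv.inv]

/-- the pointwise bound -/
theorem EAC_pt {Y : Type} [MeasurableSpace Y] {m : Measure Y} {K : Y → Y → ℂ} {H v : Y → ℂ} {w : ℝ} {y : Y} (c : ℂ)
    (h1 : Integrable (fun x => K y x * v x) m) (h2 : Integrable (fun x => ‖K y x‖ * ‖v x‖) m)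
    (h3 : Integrable (fun x => K y x * (H x * v x)) m) (hc : ∀ x, K y x ≠ 0 → ‖c - H x‖ ≤ w) :
    ‖OY m K (fun x => H x * v x) y - c * OY m K v y‖ ≤ w * OA m K v y := by
  unfold OY OA
  rw [← integral_const_mul c, ← integral_sub h3 (h1.const_mul c), ← integral_const_mul w]
  refine norm_integral_le_of_norm_le (h2.const_mul w) (Eventually.of_forall fun x => ?_)
  have e : K y x * (H x * v x) - c * (K y x * v x) = (H x - c) * (K y x * v x) := by ring
  rw [e, norm_mul, norm_mul]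
  by_cases hK : K y x = 0
  · rw [hK, norm_zero, zero_mul, mul_zero, mul_zero]
  · refine mul_le_mul_of_nonneg_right ?_ (by positivity)
    rw [norm_sub_rev]
    exact hc x hK

theorem EAC_proof (hEAO : EAO_stmt) : EAC_stmt := by
  intro Γ _ Y _ _ m D d hPS K ε b w H H' v hS hw hH hH' hv hvar
  obtain ⟨E1, -⟩ := hEAO Γ Y m D d hPS
  obtain ⟨-, hi1, hi2, hOm, B, hB⟩ := E1 K v hS.kz hv
  obtain ⟨-, hi3, -⟩ := E1 K (fun x => H x * v x) hS.kz (EAC_mul hH hv)
  have hpt : ∀ y, ‖OY m K (fun x => H x * v x) y - H' y * OY m K v y‖ ≤ w * OA m K v y := fun y =>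
    EAC_pt (H' y) (hi1 y) (hi2 y) (hi3 y) (fun x hx => hvar y x hx)
  have hfin : IsFiniteMeasure (m.restrict D) := ⟨by
    rw [Measure.restrict_apply_univ]
    exact hPS.fin⟩
  have hint : Integrable (fun y => (w * OA m K v y) ^ 2) (m.restrict D) := by
    refine Integrable.of_bound (C := (w * B) ^ 2) ((hOm.const_mul w).pow_const 2).aestronglyMeasurable (Eventually.of_forall fun y => ?_)
    rw [Real.norm_eq_abs, abs_of_nonneg (sq_nonneg _)]
    exact pow_le_pow_left₀ (mul_nonneg hw (hB y).1) (mul_le_mul_of_nonneg_left (hB y).2 hw) 2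
  unfold nY
  calc ∫ y in D, ‖OY m K (fun x => H x * v x) y - H' y * OY m K v y‖ ^ 2 ∂m ≤ ∫ y in D, (w * OA m K v y) ^ 2 ∂m := by
        refine integral_mono_of_nonneg (Eventually.of_forall fun y => by positivity) hint (Eventually.of_forall fun y => ?_)
        exact pow_le_pow_left₀ (norm_nonneg _) (hpt y) 2
    _ = w ^ 2 * ∫ y in D, OA m K v y ^ 2 ∂m := by
        rw [← integral_const_mul]
        congr 1
        funext y
        ring
    _ ≤ w ^ 2 * (b ^ 2 * nY m D v) := mul_le_mul_of_nonneg_left (hS.abs v hv) (sq_nonneg w)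
    _ = (w * b) ^ 2 * ∫ y in D, ‖v y‖ ^ 2 ∂m := by
        unfold nY
        ring

end

end Pool.Agent.VDA
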