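import Pool.Agent.helper84.VD.SpecB3

/-!
# Project VD (MP_07c750_an), block B3, row GWX: Gronwall for chains
-/

set_option autoImplicit false

open scoped ContDiff Topology InnerProductSpace ENNReal
open MeasureTheory Filter Set

namespace Pool.Agent.VD

noncomputable section

theorem GWX_proof : GWX_stmt := by
  intro d C G Φ D hE n r u hr hn hs
  have hC1 := hE.C1
  have key : ∀ l j : ℕ, j + l ≤ n → D (Φ l (u j)) (u (j + l)) ≤ l * (C * Real.exp (C * l)) * r := by
    intro l
    induction l with
    | zero =>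
      intro j _
      rw [Nat.cast_zero, hE.f0, Nat.add_zero, (hE.d0 (u j) (u j)).2.1, zero_mul, zero_mul]
    | succ l ih =>
      intro j hj
      have h1 := ih (j + 1) (by omega)
      have e1 : j + 1 + l = j + (l + 1) := by omega
      rw [e1] at h1
      have h2 : Φ ((l + 1 : ℕ) : ℝ) (u j) = Φ l (Φ 1 (u j)) := by
        rw [Nat.cast_add, Nat.cast_one, hE.fa]
      rw [h2]
      have h3 := hE.dt (Φ l (Φ 1 (u j))) (Φ l (u (j + 1))) (u (j + (l + 1)))
      have h4 := hE.gr (Φ 1 (u j)) (u (j + 1)) l (by rw [hE.fn]; exact hn j (by omega)) (hn (j + 1) (by omega))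
      rw [abs_of_nonneg (Nat.cast_nonneg l)] at h4
      have h5 : 0 ≤ C * Real.exp (C * l) := by positivity
      have h6 := mul_le_mul_of_nonneg_left (hs j (by omega)) h5
      have h7 : Real.exp (C * l) ≤ Real.exp (C * ((l + 1 : ℕ) : ℝ)) := by
        apply Real.exp_le_exp.mpr
        rw [Nat.cast_add, Nat.cast_one]
        nlinarith
      have h8 : C * Real.exp (C * l) ≤ C * Real.exp (C * ((l + 1 : ℕ) : ℝ)) := mul_le_mul_of_nonneg_left h7 (by linarith)
      calc D (Φ l (Φ 1 (u j))) (u (j + (l + 1))) ≤ C * Real.exp (C * l) * r + l * (C * Real.exp (C * l)) * r := h3.trans (add_le_add (h4.trans h6) h1)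
        _ = ((l + 1 : ℕ) : ℝ) * (C * Real.exp (C * l)) * r := by
          rw [Nat.cast_add, Nat.cast_one]
          ring
        _ ≤ ((l + 1 : ℕ) : ℝ) * (C * Real.exp (C * ((l + 1 : ℕ) : ℝ))) * r := by
          refine mul_le_mul_of_nonneg_right ?_ hr
          exact mul_le_mul_of_nonneg_left h8 (Nat.cast_nonneg _)
  exact fun j l hjl => key l j hjl

end

end Pool.Agent.VD
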