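import Pool.Agent.helper84.VD.SpecB3

/-!
# Project VD (MP_07c750_an), block B3, row SCL: sections for the class
-/

set_option autoImplicit false

open scoped ContDiff Topology InnerProductSpace ENNReal
open MeasureTheory Filter Set

namespace Pool.Agent.VD

noncomputable section

theorem SCL_proof (hSSE : SSE_stmt) (hSGE : SGE_stmt) (hEFX : EFX_stmt) : SCL_stmt := by
  intro m Γ _ _ K k B η hFdK hη
  obtain ⟨CE, hCE, hE⟩ := hEFX (m + 1) Γ K k B η hFdK hη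
  obtain ⟨CG, hCG, hG⟩ := hSGE (m + 1) Γ K K k B η hFdK hη (Subset.refl _) hFdK.compact
  obtain ⟨c, C', e0, e1, hc, hC', hS⟩ := hSSE m CG CE hCG
  by_cases hne : ∃ (G : V (m + 1) → V (m + 1) →L[ℝ] V (m + 1)) (Φ : ℝ → P (m + 1) → P (m + 1)), Cls Γ K k B G ∧ IsFlow G Φ
  · obtain ⟨G₀, Φ₀, hcl, hfl⟩ := hne
    obtain ⟨κ₀, hκ₀⟩ := hS Γ K G₀ Φ₀ (dP Γ η) (hG G₀ Φ₀ hcl hfl)
    refine ⟨c, C', e0, e1, hc, hκ₀.C1, hκ₀.ep, hκ₀.el, fun G Φ h1 h2 => ⟨hE C' hC' G Φ h1 h2, hS Γ K G Φ (dP Γ η) (hG G Φ h1 h2)⟩⟩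
  · refine ⟨1, 1, 1, 4, one_pos, le_rfl, one_pos, by norm_num, fun G Φ h1 h2 => ?_⟩
    exact absurd ⟨G, Φ, h1, h2⟩ hne

end

end Pool.Agent.VD
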