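import Pool.Agent.helper84.VD.SpecB3

/-!
# Project VD (MP_07c750_an), block B3, row SGE: the class of metrics satisfies GEO
-/

set_option autoImplicit false

open scoped ContDiff Topology InnerProductSpace ENNReal
open MeasureTheory Filter Set

namespace Pool.Agent.VD

noncomputable section

theorem SGE_proof (hSGA : SGA_stmt) (hSGB : SGB_stmt) (hSGM : SGM_stmt) (hSGD : SGD_stmt) : SGE_stmt := by
  intro d Γ _ _ K K' k B χ hFdK hχ hKK' hK'
  obtain ⟨CB, hCB, hB⟩ := hSGB d Γ K K' k B hK'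
  obtain ⟨CM, hCM, hM⟩ := hSGM d Γ K K' k B hFdK hK'
  obtain ⟨CD, hCD, hD⟩ := hSGD d Γ K K' k B χ hFdK hχ hK'
  have hb : CB ≤ max CB (max CM CD) := le_max_left _ _
  have hm : CM ≤ max CB (max CM CD) := (le_max_left _ _).trans (le_max_right _ _)
  have hd : CD ≤ max CB (max CM CD) := (le_max_right _ _).trans (le_max_right _ _)
  generalize max CB (max CM CD) = C at hb hm hd
  have hC1 : 1 ≤ C := hCB.trans hb
  have hinvM : 1 / C ≤ 1 / CM := one_div_le_one_div_of_le (by linarith) hm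
  have hinvD : 1 / C ≤ 1 / CD := one_div_le_one_div_of_le (by linarith) hd
  refine ⟨C, hC1, fun G Φ hcl hfl => ?_⟩
  have A := hSGA d Γ K K' k B hFdK hKK' G Φ hcl hfl
  have Bd := hB G hcl
  have M := hM G Φ hcl hfl
  have Dd := hD G hcl
  exact
    { C1 := hC1
      met := A.met
      fl := A.fl
      hs := A.hs
      dif := A.dif
      l1 := A.l1
      lm := A.lm
      lf := A.lf
      hm := A.hm
      cov := A.cov
      wl := A.wl
      ws := A.ws
      dh := A.dh
      ox := A.ox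
      wx := A.wx
      mx := A.mx
      om := A.om
      al := A.al
      b0 := fun z hz => by
        obtain ⟨h1, h2, h3, h4, h5⟩ := Bd.b0 z hz
        refine ⟨h1.trans hb, h2.trans hb, h3.trans hb, fun u => ?_, fun v => (h5 v).trans (mul_le_mul_of_nonneg_right hb (norm_nonneg _))⟩
        have h6 : 0 ≤ ⟪G z.1 u, u⟫_ℝ := by
          by_contra hneg
          have h7 := h4 u
          have h8 : 0 ≤ ‖u‖ ^ 2 := sq_nonneg _
          nlinarith [not_le.mp hneg]
        exact (h4 u).trans (mul_le_mul_of_nonneg_right hb h6)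
      bh := fun z hz p q hp hq => by
        obtain ⟨h1, h2⟩ := Bd.bh z hz p q hp hq
        exact ⟨h1.trans hb, h2.trans (mul_le_mul_of_nonneg_right hb (norm_nonneg _))⟩
      bq := fun z hz p v hp => (Bd.bq z hz p v hp).trans (by gcongr)
      bm := fun γ z hz z' hz' t ht h1 q q' hq hq' => by
        obtain ⟨h2, h3⟩ := M.bm γ z hz z' hz' t ht (h1.trans hinvM) q q' (hq.trans hinvM) (hq'.trans hinvM)
        exact ⟨h2.trans hm, h3.trans (mul_le_mul_of_nonneg_right hm (norm_nonneg _))⟩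
      jq := fun γ z hz t ht1 ht2 p v hp1 hp2 hv => by
        have h1 := M.jq γ z hz t ht1 ht2 p v hp1 (hp2.trans hinvM) hv
        have h2 : ‖v‖ ^ 2 / C ≤ ‖v‖ ^ 2 / CM := div_le_div_of_nonneg_left (sq_nonneg _) (by linarith) hm
        have h3 : CM * ⟪p.2, v.1⟫_ℝ ^ 2 ≤ C * ⟪p.2, v.1⟫_ℝ ^ 2 := mul_le_mul_of_nonneg_right hm (sq_nonneg _)
        linarith
      d0 := Dd.d0
      dt := Dd.dt
      di := Dd.di
      d1 := fun z hz p q hp hq => (Dd.d1 z hz p q hp hq).trans (mul_le_mul_of_nonneg_right hd (norm_nonneg _))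
      d2 := fun z hz p q hp hq => (Dd.d2 z hz p q (hp.trans hinvD) (hq.trans hinvD)).trans (mul_le_mul_of_nonneg_right hd (Dd.d0 p q).1) }

end

end Pool.Agent.VD
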