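import Pool.Agent.helper84.VD.SpecB3

/-!
# Project VD (MP_07c750_an), block B3, row STU: unit steps in terms of prY
-/

set_option autoImplicit false

open scoped ContDiff Topology InnerProductSpace ENNReal
open MeasureTheory Filter Set

namespace Pool.Agent.VD

noncomputable section

theorem STU_num {R : ℝ} (hR : 65536 ≤ R) : 4 * R ^ (-(1 / 4) : ℝ) ≤ 1 / 4 := by
  have hR0 : 0 < R := by linarith
  have h1 : (16 : ℝ) ≤ R ^ (1 / 4 : ℝ) := by
    have h2 : (16 : ℝ) = (65536 : ℝ) ^ (1 / 4 : ℝ) := by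
      rw [show (65536 : ℝ) = (16 : ℝ) ^ (4 : ℕ) by norm_num, ← Real.rpow_natCast, ← Real.rpow_mul (by norm_num)]
      norm_num
    rw [h2]
    exact Real.rpow_le_rpow (by norm_num) hR (by norm_num)
  rw [Real.rpow_neg hR0.le, inv_eq_one_div]
  have h3 : 1 / R ^ (1 / 4 : ℝ) ≤ 1 / 16 := one_div_le_one_div_of_le (by norm_num) h1
  linarith

theorem STU_abs {a e : ℝ} (ha : 0 ≤ a) (h : |a ^ 2 - 1| ≤ e) : |a - 1| ≤ e := by
  refine le_trans ?_ h
  have e1 : a ^ 2 - 1 = (a - 1) * (a + 1) := by ring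
  rw [e1, abs_mul]
  have h2 : 1 ≤ |a + 1| := by
    rw [abs_of_nonneg (by linarith)]
    linarith
  calc |a - 1| = |a - 1| * 1 := (mul_one _).symm
    _ ≤ |a - 1| * |a + 1| := mul_le_mul_of_nonneg_left h2 (abs_nonneg _)

theorem STU_proof (hDPP : DPP_stmt) (hGLF : GLF_stmt) (hGHL : GHL_stmt) (hGEQ : GEQ_stmt) (hGCF : GCF_stmt) (hGXH : GXH_stmt) : STU_stmt := by
  intro d Γ _ _ K r0 η k B hFdK hr0 hη
  obtain ⟨m', hm', hcf⟩ := hGCF d Γ K k B hFdK ⌈r0⌉₊ 1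
  obtain ⟨-, -, -, -, -, hinv, -, -, -, hup, -⟩ := hDPP d Γ K η hFdK hη
  obtain ⟨C, hC, hupC⟩ := hup (m' + 1) ((m' : ℝ) + 1)
  refine ⟨C, 65536, hC, by norm_num, ?_⟩
  intro r R G Φ hR hr hcl hfl y y' hSt
  obtain ⟨hy, hy', hdist⟩ := hSt
  have hnum := STU_num hR
  obtain ⟨-, -, -, hn2, -⟩ := hGXH d G hcl.met
  obtain ⟨hhl, -⟩ := hGHL d Γ G hcl.met hFdK.smooth hcl.isom
  obtain ⟨-, hlm, -⟩ := hGLF d Γ hFdK.smooth
  have heq := hGEQ d Γ G Φ hcl.met hFdK.smooth hcl.isom hfl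
  have hE : ∀ z : YS Γ d, z ∈ GW Γ G r0 2 R → |nrm G z.2 - 1| ≤ 4 * R ^ (-(1 / 4) : ℝ) := by
    intro z hz
    refine STU_abs (Real.sqrt_nonneg _) ?_
    rw [hn2]
    have h1 : |Ep G z.2| ≤ 2 * R ^ (-(1 / 4) : ℝ) := hz.2
    unfold Ep at h1
    have e1 : 2 * Ham G z.2 - 1 = 2 * (Ham G z.2 - 1 / 2) := by ring
    rw [e1, abs_mul, abs_of_pos (by norm_num : (0 : ℝ) < 2)]
    linarith
  have hnp : ∀ z : YS Γ d, nrm G (prY z) = nrm G z.2 := fun z => (hhl z.1 z.2).2.1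
  have h1 := hE y hy
  have h2 := hE y' hy'
  have h1' := abs_le.mp h1
  have h2' := abs_le.mp h2
  have hdp : dP Γ η (Φ 1 (prY y)) (prY y') ≤ C * r := by
    have e1 : Φ 1 (prY y) = lft y.1 (Φ 1 y.2) := heq y.1 1 y.2
    have e2 : prY y' = lft y.1 (rel y y') := by
      unfold prY rel
      rw [← hlm, mul_inv_cancel_left]
    rw [e1, e2, hinv]
    have hb := hcf G Φ hcl hfl y.2 1 (hy.1.trans (Nat.le_ceil r0)) (by linarith [h1'.2]) (by norm_num)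
    have hd : ‖Φ 1 y.2 - rel y y'‖ ≤ r := by
      rw [← dist_eq_norm]
      exact hdist.le
    have hd1 : ‖(Φ 1 y.2 - rel y y').1‖ ≤ 1 := (norm_fst_le _).trans (hd.trans hr)
    have hd2 : ‖(Φ 1 y.2 - rel y y').2‖ ≤ 1 := (norm_snd_le _).trans (hd.trans hr)
    have hq1 : ‖(rel y y').1‖ ≤ (m' : ℝ) + 1 := by
      have e3 : (rel y y').1 = (Φ 1 y.2).1 - (Φ 1 y.2 - rel y y').1 := by
        rw [Prod.fst_sub]
        abel
      rw [e3]
      exact (norm_sub_le _ _).trans (add_le_add hb.1 hd1)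
    have hq2 : ‖(rel y y').2‖ ≤ (m' : ℝ) + 1 := by
      have e3 : (rel y y').2 = (Φ 1 y.2).2 - (Φ 1 y.2 - rel y y').2 := by
        rw [Prod.snd_sub]
        abel
      rw [e3]
      exact (norm_sub_le _ _).trans (add_le_add hb.2 hd2)
    have h3 := hupC (Φ 1 y.2) (rel y y') (by push_cast; linarith [hb.1]) (by push_cast; exact hq1) (by linarith [hb.2]) hq2
    exact h3.trans (mul_le_mul_of_nonneg_left hd (by linarith))
  refine ⟨hdp, ?_, ?_, ?_, ?_, ?_, ?_⟩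
  · rw [hnp]; exact h1
  · rw [hnp]; exact h2
  · rw [hnp]; linarith [h1'.1]
  · rw [hnp]; linarith [h1'.2]
  · rw [hnp]; linarith [h2'.1]
  · rw [hnp]; linarith [h2'.2]

end

end Pool.Agent.VD
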