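import Pool.Agent.helper84.VD.SpecB3

/-!
# Project VD (MP_07c750_an), block B3, row EFX: the flow on all energy levels
-/

set_option autoImplicit false

open scoped ContDiff Topology InnerProductSpace ENNReal
open MeasureTheory Filter Set

namespace Pool.Agent.VD

noncomputable section

theorem EFX_lft {d : ℕ} {Γ : Type} [Group Γ] [MulAction Γ (V d)] (γ : Γ) (l : ℝ) (p : P d) : lft γ (sc l p) = sc l (lft γ p) := by
  unfold lft sc
  show (_ : P d) = (γ • p.1, l • _)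
  rw [map_smul]

theorem EFX_sn {d : ℕ} (G : V d → V d →L[ℝ] V d) (l : ℝ) (p : P d) : nrm G (sc l p) = |l| * nrm G p := by
  unfold nrm sc
  show Real.sqrt ⟪IG G p.1 (l • p.2), l • p.2⟫_ℝ = |l| * Real.sqrt ⟪IG G p.1 p.2, p.2⟫_ℝ
  rw [map_smul, real_inner_smul_left, real_inner_smul_right, ← mul_assoc, Real.sqrt_mul (mul_self_nonneg l), Real.sqrt_mul_self_eq_abs]

theorem EFX_s2 {d : ℕ} {Γ : Type} [Group Γ] [MulAction Γ (V d)] {χ : V d → ℝ}
    (hb : ∀ p q : P d, BddAbove (range fun γ : Γ => ‖embP χ (lft γ p) - embP χ (lft γ q)‖)) (p q : P d) (l : ℝ) (hl0 : 0 ≤ l) (hl2 : l ≤ 2) :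
    dP Γ χ (sc l p) (sc l q) ≤ 2 * dP Γ χ p q := by
  unfold dP
  refine ciSup_le fun γ => ?_
  have h1 : ‖embP χ (lft γ p) - embP χ (lft γ q)‖ ≤ ⨆ γ : Γ, ‖embP χ (lft γ p) - embP χ (lft γ q)‖ := le_ciSup (hb p q) γ
  refine le_trans ?_ (mul_le_mul_of_nonneg_left h1 (by norm_num : (0 : ℝ) ≤ 2))
  rw [EFX_lft, EFX_lft]
  generalize lft γ p = p'
  generalize lft γ q = q'
  have e1 : embP χ (sc l p') - embP χ (sc l q') = (χ p'.1 • p'.1 - χ q'.1 • q'.1, l • (χ p'.1 • p'.2 - χ q'.1 • q'.2), 3 * χ p'.1 - 3 * χ q'.1) := by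
    unfold embP sc
    refine Prod.ext rfl (Prod.ext ?_ rfl)
    show χ p'.1 • l • p'.2 - χ q'.1 • l • q'.2 = l • (χ p'.1 • p'.2 - χ q'.1 • q'.2)
    rw [smul_sub, smul_comm, smul_comm (χ q'.1) l]
  have e2 : embP χ p' - embP χ q' = (χ p'.1 • p'.1 - χ q'.1 • q'.1, χ p'.1 • p'.2 - χ q'.1 • q'.2, 3 * χ p'.1 - 3 * χ q'.1) := rfl
  rw [e1, e2]
  generalize χ p'.1 • p'.1 - χ q'.1 • q'.1 = a
  generalize χ p'.1 • p'.2 - χ q'.1 • q'.2 = b
  generalize 3 * χ p'.1 - 3 * χ q'.1 = c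
  have ha : ‖a‖ ≤ ‖((a, b, c) : V d × V d × ℝ)‖ := norm_fst_le ((a, b, c) : V d × V d × ℝ)
  have hbc : ‖((b, c) : V d × ℝ)‖ ≤ ‖((a, b, c) : V d × V d × ℝ)‖ := norm_snd_le ((a, b, c) : V d × V d × ℝ)
  have hb' : ‖b‖ ≤ ‖((a, b, c) : V d × V d × ℝ)‖ := (norm_fst_le ((b, c) : V d × ℝ)).trans hbc
  have hc' : ‖c‖ ≤ ‖((a, b, c) : V d × V d × ℝ)‖ := (norm_snd_le ((b, c) : V d × ℝ)).trans hbc
  have h0 : 0 ≤ ‖((a, b, c) : V d × V d × ℝ)‖ := norm_nonneg _
  rw [Prod.norm_def ((a, l • b, c) : V d × V d × ℝ), Prod.norm_def ((l • b, c) : V d × ℝ)]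
  refine max_le ?_ (max_le ?_ ?_)
  · show ‖a‖ ≤ _
    linarith
  · show ‖l • b‖ ≤ _
    rw [norm_smul, Real.norm_eq_abs, abs_of_nonneg hl0]
    calc l * ‖b‖ ≤ 2 * ‖b‖ := mul_le_mul_of_nonneg_right hl2 (norm_nonneg _)
      _ ≤ 2 * ‖((a, b, c) : V d × V d × ℝ)‖ := by linarith
  · show ‖c‖ ≤ _
    linarith

/-- the inequality for the norms in one chart -/
theorem EFX_nl {d : ℕ} {G : V d → V d →L[ℝ] V d} {m : ℕ} {Bd L CN : ℝ} (hsym : ∀ x u v, ⟪IG G x u, v⟫_ℝ = ⟪u, IG G x v⟫_ℝ)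
    (hB : ∀ x : V d, ‖x‖ ≤ m → ‖IG G x‖ ≤ Bd) (hL : ∀ x y : V d, ‖x‖ ≤ m → ‖y‖ ≤ m → ‖IG G x - IG G y‖ ≤ L * ‖x - y‖)
    (hCN : 0 < CN) (hN : ∀ p : P d, ‖p.1‖ ≤ m → ‖p.2‖ ≤ CN * nrm G p) (hnn : ∀ p : P d, nrm G p ^ 2 = ⟪IG G p.1 p.2, p.2⟫_ℝ)
    (p q : P d) (hp : ‖p.1‖ ≤ m) (hq : ‖q.1‖ ≤ m) (hp2 : nrm G p ≤ 3 / 2) (hq2 : nrm G q ≤ 3 / 2) (hL0 : 0 ≤ L) :
    |nrm G p - nrm G q| ≤ (CN * (Bd + L * (CN * (3 / 2)))) * ‖p - q‖ := by
  have hpn : 0 ≤ nrm G p := Real.sqrt_nonneg _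
  have hqn : 0 ≤ nrm G q := Real.sqrt_nonneg _
  have hB0 : 0 ≤ Bd := (norm_nonneg _).trans (hB p.1 hp)
  have h1 : ‖p.1 - q.1‖ ≤ ‖p - q‖ := norm_fst_le (p - q)
  have h2 : ‖p.2 - q.2‖ ≤ ‖p - q‖ := norm_snd_le (p - q)
  have h3 := hN p hp
  have h4 := hN q hq
  have hqm : ‖q.2‖ ≤ CN * (3 / 2) := h4.trans (mul_le_mul_of_nonneg_left hq2 hCN.le)
  have e1 : nrm G p ^ 2 - nrm G q ^ 2 = ⟪IG G p.1 (p.2 - q.2), p.2⟫_ℝ + ⟪IG G p.1 q.2, p.2 - q.2⟫_ℝ + ⟪(IG G p.1 - IG G q.1) q.2, q.2⟫_ℝ := by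
    rw [hnn, hnn, map_sub, inner_sub_left, inner_sub_right, ContinuousLinearMap.sub_apply, inner_sub_left]
    ring
  have h5 : |⟪IG G p.1 (p.2 - q.2), p.2⟫_ℝ| ≤ Bd * ‖p - q‖ * ‖p.2‖ := by
    refine (abs_real_inner_le_norm _ _).trans (mul_le_mul_of_nonneg_right ?_ (norm_nonneg _))
    exact (ContinuousLinearMap.le_opNorm _ _).trans (mul_le_mul (hB p.1 hp) h2 (norm_nonneg _) hB0)
  have h6 : |⟪IG G p.1 q.2, p.2 - q.2⟫_ℝ| ≤ Bd * ‖q.2‖ * ‖p - q‖ := by
    refine (abs_real_inner_le_norm _ _).trans (mul_le_mul ?_ h2 (norm_nonneg _) (by positivity))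
    exact (ContinuousLinearMap.le_opNorm _ _).trans (mul_le_mul_of_nonneg_right (hB p.1 hp) (norm_nonneg _))
  have h7 : |⟪(IG G p.1 - IG G q.1) q.2, q.2⟫_ℝ| ≤ L * ‖p - q‖ * ‖q.2‖ * ‖q.2‖ := by
    refine (abs_real_inner_le_norm _ _).trans (mul_le_mul_of_nonneg_right ?_ (norm_nonneg _))
    refine (ContinuousLinearMap.le_opNorm _ _).trans (mul_le_mul_of_nonneg_right ?_ (norm_nonneg _))
    exact (hL p.1 q.1 hp hq).trans (mul_le_mul_of_nonneg_left h1 hL0)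
  have h8 : |nrm G p ^ 2 - nrm G q ^ 2| ≤ (‖p.2‖ + ‖q.2‖) * ((Bd + L * (CN * (3 / 2))) * ‖p - q‖) := by
    rw [e1]
    refine (abs_add_le _ _).trans ?_
    have h9 := abs_add_le ⟪IG G p.1 (p.2 - q.2), p.2⟫_ℝ ⟪IG G p.1 q.2, p.2 - q.2⟫_ℝ
    have h10 : L * ‖p - q‖ * ‖q.2‖ * ‖q.2‖ ≤ L * ‖p - q‖ * (CN * (3 / 2)) * (‖p.2‖ + ‖q.2‖) := by
      refine mul_le_mul (mul_le_mul_of_nonneg_left hqm (by positivity)) (by linarith [norm_nonneg p.2]) (norm_nonneg _) (by positivity)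
    nlinarith
  have e2 : nrm G p ^ 2 - nrm G q ^ 2 = (nrm G p - nrm G q) * (nrm G p + nrm G q) := by ring
  rw [e2, abs_mul, abs_of_nonneg (by linarith : 0 ≤ nrm G p + nrm G q)] at h8
  have h11 : ‖p.2‖ + ‖q.2‖ ≤ CN * (nrm G p + nrm G q) := by linarith
  have h12 : 0 ≤ (Bd + L * (CN * (3 / 2))) * ‖p - q‖ := by positivity
  rcases (by linarith : 0 ≤ nrm G p + nrm G q).eq_or_lt with h0 | hpos
  · have hp0 : nrm G p = 0 := by linarith
    have hq0 : nrm G q = 0 := by linarith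
    rw [hp0, hq0, sub_zero, abs_zero]
    positivity
  · have h13 : |nrm G p - nrm G q| * (nrm G p + nrm G q) ≤ (CN * ((Bd + L * (CN * (3 / 2))) * ‖p - q‖)) * (nrm G p + nrm G q) := by
      refine h8.trans ((mul_le_mul_of_nonneg_right h11 h12).trans (le_of_eq ?_))
      ring
    have h14 := le_of_mul_le_mul_right h13 hpos
    rw [← mul_assoc] at h14
    exact h14

theorem EFX_proof (hDPP : DPP_stmt) (hDGR : DGR_stmt) (hGIN : GIN_stmt) (hGUN : GUN_stmt) (hGNR : GNR_stmt) (hGUI : GUI_stmt)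
    (hGHL : GHL_stmt) : EFX_stmt := by
  intro d Γ _ _ K k B χ hFdK hχ
  obtain ⟨hbdd, hnn0, hpp, hsymm, htri, hinv, -, -, hlow, -, -⟩ := hDPP d Γ K χ hFdK hχ
  obtain ⟨CG, hCG, hG⟩ := hDGR d Γ K k B χ hFdK hχ
  -- a ball
  obtain ⟨b1, hb1⟩ := hFdK.compact.isBounded.exists_norm_le
  obtain ⟨b2, hb2⟩ := hχ.supp.isCompact.isBounded.exists_norm_le
  obtain ⟨m, hm⟩ := exists_nat_ge (max (b1 + 1) b2)
  have hm1 : b1 + 1 ≤ m := (le_max_left _ _).trans hm
  have hm2 : b2 ≤ m := (le_max_right _ _).trans hm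
  obtain ⟨CN, hCN, hN⟩ := hGNR d B m
  obtain ⟨C0, hC0⟩ := hGUI d B m 0
  obtain ⟨C1, hC1⟩ := hGUI d B m 1
  obtain ⟨C', hC', hlo⟩ := hlow (CN * (3 / 2))
  have hCN0 : 0 < CN := by linarith
  have hC'0 : 0 < C' := by linarith
  set M : ℝ := CN * (max C0 0 + max C1 0 * (CN * (3 / 2))) with hM
  have hM0 : 0 ≤ M := by
    rw [hM]
    have h1 : 0 ≤ max C0 0 := le_max_right _ _
    have h2 : 0 ≤ max C1 0 := le_max_right _ _
    positivity
  refine ⟨max CG (max (3 * C') (max (M * C') (CN * (3 / 2)))), hCG.trans (le_max_left _ _), ?_⟩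
  intro C hC G Φ hcl hfl
  have hca : CG ≤ C := (le_max_left _ _).trans hC
  have hcb : 3 * C' ≤ C := (le_max_left _ _).trans ((le_max_right _ _).trans hC)
  have hcc : M * C' ≤ C := (le_max_left _ _).trans ((le_max_right _ _).trans ((le_max_right _ _).trans hC))
  have hcd : CN * (3 / 2) ≤ C := (le_max_right _ _).trans ((le_max_right _ _).trans ((le_max_right _ _).trans hC))
  have hC1' : 1 ≤ C := hCG.trans hca
  obtain ⟨-, hcons, -⟩ : True ∧ (∀ (t : ℝ) (p : P d), Ham G (Φ t p) = Ham G p ∧ nrm G (Φ t p) = nrm G p) ∧ True := ⟨trivial, (hGUN d G Φ hcl.met hfl).2.2.1, trivial⟩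
  have hscal := (hGUN d G Φ hcl.met hfl).2.2.2
  obtain ⟨hg1, hg2, hg3⟩ := hG G Φ hcl hfl
  obtain ⟨hhl, -⟩ := hGHL d Γ G hcl.met hFdK.smooth hcl.isom
  obtain ⟨-, hIsym, hIpos, hIsm, -⟩ := hGIN d G hcl.met
  have hnrm := hN G hcl.met hcl.lo hcl.bd
  have hnn : ∀ p : P d, nrm G p ^ 2 = ⟪IG G p.1 p.2, p.2⟫_ℝ := by
    intro p
    unfold nrm
    rw [Real.sq_sqrt]
    rcases eq_or_ne p.2 0 with h0 | h0
    · rw [h0, inner_zero_right]
    · exact (hIpos p.1 p.2 h0).le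
  have hB : ∀ x : V d, ‖x‖ ≤ m → ‖IG G x‖ ≤ max C0 0 := by
    intro x hx
    have h1 := hC0 G hcl.met hcl.lo hcl.bd x hx
    rw [norm_iteratedFDeriv_zero] at h1
    exact h1.trans (le_max_left _ _)
  have hL : ∀ x y : V d, ‖x‖ ≤ m → ‖y‖ ≤ m → ‖IG G x - IG G y‖ ≤ max C1 0 * ‖x - y‖ := by
    intro x y hx hy
    have hconv : Convex ℝ (Metric.closedBall (0 : V d) m) := convex_closedBall _ _
    refine hconv.norm_image_sub_le_of_norm_fderiv_le (𝕜 := ℝ) (f := IG G) (fun z _ => (hIsm.differentiable (by simp)).differentiableAt) (fun z hz => ?_)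
      (by rw [mem_closedBall_zero_iff]; exact hy) (by rw [mem_closedBall_zero_iff]; exact hx)
    rw [mem_closedBall_zero_iff] at hz
    have h1 := hC1 G hcl.met hcl.lo hcl.bd z hz
    rw [← norm_iteratedFDeriv_one]
    exact h1.trans (le_max_left _ _)
  exact
    { C1 := hC1'
      d0 := fun p q => ⟨hnn0 p q, hpp p, hsymm p q⟩
      dt := htri
      f0 := hfl.zero
      fa := hfl.add
      fn := fun t p => (hcons t p).2
      sf := fun t l p => hscal t l p.1 p.2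
      sn := fun l p => EFX_sn G l p
      gr := fun p q t hp hq => by
        refine (hg1 p q t hp hq).trans (mul_le_mul_of_nonneg_right ?_ (hnn0 p q))
        refine mul_le_mul hca (Real.exp_le_exp.mpr (mul_le_mul_of_nonneg_right hca (abs_nonneg t))) (Real.exp_pos _).le (by linarith)
      gt := fun p s t hp => (hg3 p s t hp).trans (mul_le_mul_of_nonneg_right hca (abs_nonneg _))
      nl := fun p q hp hq => by
        obtain ⟨γ, hγ⟩ := hFdK.cover p.1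
        rw [← (hhl γ p).2.1, ← hinv γ p q, ← (hhl γ q).2.1]
        rw [← (hhl γ p).2.1] at hp
        rw [← (hhl γ q).2.1] at hq
        have hpK : (lft γ p).1 ∈ K := hγ
        generalize lft γ p = p' at hp hpK ⊢
        generalize lft γ q = q' at hq ⊢
        have hp1 : ‖p'.1‖ ≤ b1 := hb1 _ hpK
        have hp1m : ‖p'.1‖ ≤ m := by linarith
        have hp2 : ‖p'.2‖ ≤ CN * (3 / 2) := (hnrm p' hp1m).1.trans (mul_le_mul_of_nonneg_left hp hCN0.le)
        have hpn : 0 ≤ nrm G p' := Real.sqrt_nonneg _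
        have hqn : 0 ≤ nrm G q' := Real.sqrt_nonneg _
        rcases le_or_gt (dP Γ χ p' q') (1 / (2 * C')) with hle | hgt
        · have h2C : 1 / (2 * C') ≤ 1 / 2 := one_div_le_one_div_of_le (by norm_num) (by linarith)
          have h1 := hlo p' q' hpK hp2 (hle.trans h2C)
          have h2 : C' * dP Γ χ p' q' ≤ 1 / 2 := by
            calc C' * dP Γ χ p' q' ≤ C' * (1 / (2 * C')) := mul_le_mul_of_nonneg_left hle hC'0.le
              _ = 1 / 2 := by field_simp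
          have hq1m : ‖q'.1‖ ≤ m := by
            have h3 : ‖(p' - q').1‖ ≤ 1 / 2 := (norm_fst_le _).trans (h1.trans h2)
            have e3 : q'.1 = p'.1 - (p' - q').1 := by
              rw [Prod.fst_sub]
              abel
            rw [e3]
            exact (norm_sub_le _ _).trans (by linarith)
          have h4 := EFX_nl (m := m) hIsym hB hL hCN0 (fun p hp => (hnrm p hp).1) hnn p' q' hp1m hq1m hp hq (le_max_right _ _)
          refine h4.trans ((mul_le_mul_of_nonneg_left h1 hM0).trans ?_)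
          rw [← mul_assoc]
          exact mul_le_mul_of_nonneg_right hcc (hnn0 _ _)
        · have h1 : |nrm G p' - nrm G q'| ≤ 3 / 2 := by
            rw [abs_le]
            constructor <;> linarith
          have h2 : 3 / 2 ≤ 3 * C' * dP Γ χ p' q' := by
            calc (3 / 2 : ℝ) = 3 * C' * (1 / (2 * C')) := by field_simp
              _ ≤ 3 * C' * dP Γ χ p' q' := mul_le_mul_of_nonneg_left hgt.le (by linarith)
          exact h1.trans (h2.trans (mul_le_mul_of_nonneg_right hcb (hnn0 _ _)))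
      s1 := fun p l hp hl0 hl2 => by
        unfold dP
        refine ciSup_le fun γ => ?_
        rw [EFX_lft]
        have hp' : nrm G (lft γ p) ≤ 3 / 2 := by rw [(hhl γ p).2.1]; exact hp
        generalize lft γ p = p' at hp' ⊢
        have e1 : embP χ p' - embP χ (sc l p') = (0, (1 - l) • χ p'.1 • p'.2, 0) := by
          unfold embP sc
          refine Prod.ext ?_ (Prod.ext ?_ ?_)
          · show χ p'.1 • p'.1 - χ p'.1 • p'.1 = 0
            exact sub_self _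
          · show χ p'.1 • p'.2 - χ p'.1 • l • p'.2 = (1 - l) • χ p'.1 • p'.2
            rw [sub_smul, one_smul, smul_comm]
          · show 3 * χ p'.1 - 3 * χ p'.1 = 0
            exact sub_self _
        rw [e1, Prod.norm_def, Prod.norm_def]
        have hR0 : 0 ≤ C * |l - 1| := mul_nonneg (by linarith) (abs_nonneg _)
        refine max_le ?_ (max_le ?_ ?_)
        · show ‖(0 : V d)‖ ≤ _
          rw [norm_zero]
          exact hR0
        · show ‖(1 - l) • χ p'.1 • p'.2‖ ≤ _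
          rw [norm_smul, norm_smul, Real.norm_eq_abs, Real.norm_eq_abs, abs_sub_comm]
          rcases eq_or_ne (χ p'.1) 0 with h0 | h0
          · rw [h0, abs_zero, zero_mul, mul_zero]
            exact hR0
          · have h1 : ‖p'.1‖ ≤ m := (hb2 _ (subset_tsupport χ h0)).trans hm2
            have h2 : ‖p'.2‖ ≤ CN * (3 / 2) := (hnrm p' h1).1.trans (mul_le_mul_of_nonneg_left hp' hCN0.le)
            have h3 : |χ p'.1| ≤ 1 := by
              rw [abs_of_nonneg (hχ.bd _).1]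
              exact (hχ.bd _).2
            calc |l - 1| * (|χ p'.1| * ‖p'.2‖) ≤ |l - 1| * (1 * (CN * (3 / 2))) :=
                  mul_le_mul_of_nonneg_left (mul_le_mul h3 h2 (norm_nonneg _) zero_le_one) (abs_nonneg _)
              _ ≤ |l - 1| * C := mul_le_mul_of_nonneg_left (by linarith) (abs_nonneg _)
              _ = C * |l - 1| := mul_comm _ _
        · show ‖(0 : ℝ)‖ ≤ _
          rw [norm_zero]
          exact hR0
      s2 := fun p q l hl0 hl2 => EFX_s2 hbdd p q l hl0 hl2 }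

end

end Pool.Agent.VD
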