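import Pool.Agent.helper84.VD.SpecB5

/-!
# Project VD (MP_07c750_an), block B3 part 2, row SCM: sections for the class (helper93's form)
-/

set_option autoImplicit false

open scoped ContDiff Topology InnerProductSpace ENNReal
open MeasureTheory Filter Set

namespace Pool.Agent.VD

noncomputable section

theorem SCM_proof (hSSE : SSE_stmt) (hSGE : SGE_stmt) : SCM_stmt := by
  intro m Γ _ _ K k B η C0 hFdK hη
  obtain ⟨CG, hCG, hG⟩ := hSGE (m + 1) Γ K K k B η hFdK hη (Subset.refl _) hFdK.compact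
  obtain ⟨c, C', e0, e1, hc, hC', hS⟩ := hSSE m CG (max C0 1) hCG
  have h1 : C0 ≤ C' := (le_max_left _ _).trans hC'
  have h2 : 1 ≤ C' := (le_max_right _ _).trans hC'
  by_cases hne : ∃ (G : V (m + 1) → V (m + 1) →L[ℝ] V (m + 1)) (Φ : ℝ → P (m + 1) → P (m + 1)), Cls Γ K k B G ∧ IsFlow G Φ
  · obtain ⟨G₀, Φ₀, hcl, hfl⟩ := hne
    obtain ⟨κ₀, hκ₀⟩ := hS Γ K G₀ Φ₀ (dP Γ η) (hG G₀ Φ₀ hcl hfl)
    have he1 : 0 < e1 := lt_of_lt_of_le (mul_pos (by linarith) hκ₀.ep) hκ₀.el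
    exact ⟨c, C', e0, e1, hc, h1, h2, hκ₀.ep, he1, fun G Φ h3 h4 => hS Γ K G Φ (dP Γ η) (hG G Φ h3 h4)⟩
  · refine ⟨c, C', 1, 1, hc, h1, h2, one_pos, one_pos, fun G Φ h3 h4 => ?_⟩
    exact absurd ⟨G, Φ, h3, h4⟩ hne

end

end Pool.Agent.VD
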